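import Mathlib
import Pool.Agent.N604.MW.Stm6

/-!
# KW/DKEY: the moment of `GD` away from the axes
-/

namespace Pool.Agent.N933.KW

open Finset MeasureTheory Pool.Agent.N604.MW

theorem qq_nonneg (t : ℝ) : 0 ≤ qq t := by
  unfold qq; split_ifs <;> positivity

theorem qq_meas : Measurable qq := by
  unfold qq
  refine Measurable.ite ?_ measurable_const (by fun_prop)
  exact measurableSet_le (by fun_prop) measurable_const

/-- the weight -/
noncomputable def Q (g : ℕ) (γ : Fin g → ℝ) : ENNReal := ENNReal.ofReal (∏ j, qq (γ j))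

theorem Q_meas (g : ℕ) : Measurable (Q g) := by
  unfold Q
  apply ENNReal.measurable_ofReal.comp
  exact Finset.measurable_prod _ fun j _ => qq_meas.comp (measurable_pi_apply j)

/-- tuples of rows -/
noncomputable def RT (ρ g X : ℕ) : Finset (Fin ρ → Fin g → ℕ) :=
  Fintype.piFinset fun _ => Fintype.piFinset fun _ => Finset.Icc X (2 * X)

/-- some minor is large -/
def Gd (k X ρ g : ℕ) (r : Fin ρ → Fin g → ℕ) : Prop :=
  ∃ c : Fin ρ → Fin g, (X : ℝ) ^ (ρ * (k - 1)) ≤ |(Matrix.of fun i j => ((r i (c j) : ℝ)) ^ k).det|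

/-- the slab -/
def Sl (k g ρ : ℕ) (T : ℝ) (r : Fin ρ → Fin g → ℕ) : Set (Fin g → ℝ) :=
  {B : Fin g → ℝ | ∀ i, |∑ a, B a * (r i a : ℝ) ^ k| ≤ T}

open Classical in
/-- the count -/
noncomputable def RR (k X g ρ : ℕ) (T : ℝ) (B : Fin g → ℝ) : ENNReal :=
  ∑ r ∈ (RT ρ g X).filter (Gd k X ρ g), (Sl k g ρ T r).indicator 1 B

theorem measurableSet_Sl (k g ρ : ℕ) (T : ℝ) (r : Fin ρ → Fin g → ℕ) : MeasurableSet (Sl k g ρ T r) := by
  have h1 : Sl k g ρ T r = ⋂ i, {B : Fin g → ℝ | |∑ a, B a * (r i a : ℝ) ^ k| ≤ T} := by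
    ext B; simp [Sl]
  rw [h1]
  exact MeasurableSet.iInter fun a => (isClosed_le (by fun_prop) (by fun_prop)).measurableSet

theorem measurable_RR (k X g ρ : ℕ) (T : ℝ) : Measurable (RR k X g ρ T) := by
  unfold RR
  apply Finset.measurable_sum
  intro r _
  exact measurable_one.indicator (measurableSet_Sl k g ρ T r)

theorem card_RT (ρ g X : ℕ) : (RT ρ g X).card = (X + 1) ^ (g * ρ) := by
  unfold RT
  have h : 2 * X + 1 - X = X + 1 := by omega
  simp only [Fintype.card_piFinset, Nat.card_Icc, Finset.prod_const, Finset.card_univ, Fintype.card_fin, h]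
  rw [← pow_mul]

theorem int_RR (h3 : S_DMEASQ) (k X g ρ : ℕ) (T : ℝ) (hT : 0 ≤ T) (hX : 1 ≤ X) :
    ∫⁻ γ, Q g γ * RR k X g ρ T γ ≤
      ENNReal.ofReal (((X : ℝ) + 1) ^ (g * ρ) * (6 ^ g * (2 * T) ^ ρ / (X : ℝ) ^ (ρ * (k - 1)))) := by
  classical
  have e1 : ∀ γ, Q g γ * RR k X g ρ T γ =
      ∑ r ∈ (RT ρ g X).filter (Gd k X ρ g), (Sl k g ρ T r).indicator (Q g) γ := by
    intro γ
    unfold RR
    rw [Finset.mul_sum]
    apply Finset.sum_congr rfl
    intro r _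
    by_cases h : γ ∈ Sl k g ρ T r
    · rw [Set.indicator_of_mem h, Set.indicator_of_mem h]; simp
    · rw [Set.indicator_of_notMem h, Set.indicator_of_notMem h]; simp
  simp_rw [e1]
  rw [lintegral_finsetSum]
  · have hXp : (0 : ℝ) < (X : ℝ) ^ (ρ * (k - 1)) := by positivity
    have hV : (0 : ℝ) ≤ 6 ^ g * (2 * T) ^ ρ / (X : ℝ) ^ (ρ * (k - 1)) := by positivity
    calc ∑ r ∈ (RT ρ g X).filter (Gd k X ρ g), ∫⁻ B, (Sl k g ρ T r).indicator (Q g) B
        ≤ ∑ r ∈ (RT ρ g X).filter (Gd k X ρ g),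
            ENNReal.ofReal (6 ^ g * (2 * T) ^ ρ / (X : ℝ) ^ (ρ * (k - 1))) := by
          apply Finset.sum_le_sum
          intro r hr
          obtain ⟨c, hc⟩ := (Finset.mem_filter.mp hr).2
          exact h3 g ρ T _ (fun i a => (r i a : ℝ) ^ k) c hT hXp hc
      _ ≤ ∑ r ∈ RT ρ g X,
            ENNReal.ofReal (6 ^ g * (2 * T) ^ ρ / (X : ℝ) ^ (ρ * (k - 1))) :=
          Finset.sum_le_sum_of_subset (Finset.filter_subset _ _)
      _ = _ := by
          rw [Finset.sum_const, card_RT, nsmul_eq_mul, ENNReal.ofReal_mul (by positivity)]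
          congr 1
          rw [ENNReal.ofReal_pow (by positivity)]
          push_cast
          congr 1
          rw [ENNReal.ofReal_add (by positivity) (by positivity)]
          simp
  · intro r _
    exact (Q_meas g).indicator (measurableSet_Sl k g ρ T r)

theorem int_Q (h3 : S_DMEASQ) (g : ℕ) : ∫⁻ γ, Q g γ ≤ ENNReal.ofReal (6 ^ g) := by
  have h := h3 g 0 0 1 (fun i => i.elim0) (fun i => i.elim0) le_rfl one_pos (by simp)
  refine le_trans (le_of_eq ?_) (h.trans (le_of_eq (by simp)))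
  apply lintegral_congr
  intro γ
  rw [Set.indicator_of_mem]
  · rfl
  · intro i; exact i.elim0

open Classical in
/-- the finset counted by `UD` -/
noncomputable def ZZ (g k X : ℕ) (T : ℝ) (B : Fin g → ℝ) : Finset (Fin g → ℕ) :=
  (Fintype.piFinset (fun _ : Fin g => Finset.Icc X (2 * X))).filter fun z : Fin g → ℕ =>
    |∑ a, B a * (z a : ℝ) ^ k| ≤ T

theorem UD_eq (g k X : ℕ) (T : ℝ) (B : Fin g → ℝ) : UD g k X T B = ((ZZ g k X T B).card : ℝ) := rfl

theorem mem_ZZ (g k X : ℕ) (T : ℝ) (B : Fin g → ℝ) (z : Fin g → ℕ) (hz : z ∈ ZZ g k X T B) :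
    (∀ a, X ≤ z a ∧ z a ≤ 2 * X) ∧ |∑ a, B a * (z a : ℝ) ^ k| ≤ T := by
  simp only [ZZ, Finset.mem_filter, Fintype.mem_piFinset] at hz
  exact ⟨fun a => Finset.mem_Icc.mp (hz.1 a), hz.2⟩

theorem calc1 (g s ρ : ℕ) (z Y R A : ℝ) (hz : 0 ≤ z) (hY : 1 ≤ Y) (_hR0 : 0 ≤ R) (hρg : ρ ≤ g) (hρs : ρ ≤ s)
    (hA : 1 ≤ A) (h1 : z ≤ A * Y ^ ρ) (h2 : (z / 2) ^ ρ ≤ R) :
    z ^ s ≤ A ^ s * 2 ^ g * Y ^ (ρ * (s - ρ)) * R := by
  have hsr : s = (s - ρ) + ρ := by omega
  have e1 : z ^ s = z ^ (s - ρ) * (2 ^ ρ * (z / 2) ^ ρ) := by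
    calc z ^ s = z ^ (s - ρ + ρ) := congrArg _ hsr
      _ = z ^ (s - ρ) * z ^ ρ := pow_add _ _ _
      _ = z ^ (s - ρ) * (2 ^ ρ * (z / 2) ^ ρ) := by
        rw [← mul_pow]
        congr 2
        ring
  have e2 : z ^ (s - ρ) ≤ (A * Y ^ ρ) ^ (s - ρ) := pow_le_pow_left₀ hz h1 _
  have e3 : (2 : ℝ) ^ ρ * (z / 2) ^ ρ ≤ 2 ^ g * R := by
    apply mul_le_mul _ h2 (by positivity) (by positivity)
    exact pow_le_pow_right₀ (by norm_num) hρg
  have hA0 : 0 ≤ A := by linarith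
  have e4 : (A * Y ^ ρ) ^ (s - ρ) ≤ A ^ s * Y ^ (ρ * (s - ρ)) := by
    rw [mul_pow, ← pow_mul Y]
    apply mul_le_mul_of_nonneg_right _ (by positivity)
    exact pow_le_pow_right₀ hA (by omega)
  calc z ^ s = z ^ (s - ρ) * (2 ^ ρ * (z / 2) ^ ρ) := e1
    _ ≤ (A ^ s * Y ^ (ρ * (s - ρ))) * (2 ^ g * R) := by
        apply mul_le_mul (e2.trans e4) e3 (by positivity) (by positivity)
    _ = _ := by ring

/-- pointwise bound -/
theorem point (h2 : S_GREEDY) (g k s X p : ℕ) (T A : ℝ) (hp : 1 ≤ p) (hpg : p ≤ g) (hk : 2 ≤ k) (hs : p ≤ s)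
    (hX : 2 ≤ X) (hA : (2 : ℝ) ^ (g + 1) ≤ A) (B : Fin g → ℝ)
    (hB : UD g k X T B ≤ A * ((X : ℝ) + 1) ^ p) :
    ENNReal.ofReal (UD g k X T B ^ s) ≤ ∑ ρ ∈ Finset.Icc 1 p,
      ENNReal.ofReal (A ^ s * 2 ^ g * ((X : ℝ) + 1) ^ (ρ * (s - ρ))) * RR k X g ρ T B := by
  classical
  rw [UD_eq] at hB ⊢
  set Z : Finset (Fin g → ℕ) := ZZ g k X T B with hZ
  have hZm : ∀ z ∈ Z, (∀ a, X ≤ z a ∧ z a ≤ 2 * X) ∧ |∑ a, B a * (z a : ℝ) ^ k| ≤ T := by
    intro z hz
    exact mem_ZZ g k X T B z hz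
  rcases Finset.eq_empty_or_nonempty Z with hZe | ⟨z0, hz0⟩
  · rw [hZe]
    have : s ≠ 0 := by omega
    simp [this]
  have hA1 : 1 ≤ A := le_trans (one_le_pow₀ (by norm_num)) hA
  have hA0 : 0 ≤ A := by linarith
  -- lower bound for `RR`
  have hlow : ∀ (ρ : ℕ) (R : Finset (Fin ρ → Fin g → ℕ)), (∀ r ∈ R, (∀ i, r i ∈ Z) ∧ Gd k X ρ g r) →
      (R.card : ENNReal) ≤ RR k X g ρ T B := by
    intro ρ R hR
    unfold RR
    calc (R.card : ENNReal) = ∑ r ∈ R, 1 := by simp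
      _ = ∑ r ∈ R, (Sl k g ρ T r).indicator 1 B := by
          apply Finset.sum_congr rfl
          intro r hr
          rw [Set.indicator_of_mem]
          · rfl
          · intro i
            exact (hZm _ ((hR r hr).1 i)).2
      _ ≤ _ := by
          apply Finset.sum_le_sum_of_subset
          intro r hr
          rw [Finset.mem_filter]
          refine ⟨?_, (hR r hr).2⟩
          unfold RT
          rw [Fintype.mem_piFinset]
          intro i
          rw [Fintype.mem_piFinset]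
          intro a
          exact Finset.mem_Icc.mpr ((hZm _ ((hR r hr).1 i)).1 a)
  have hX1 : (1 : ℝ) ≤ (X : ℝ) + 1 := by
    have : (0 : ℝ) ≤ X := by positivity
    linarith
  -- it suffices to bound by one term
  have key : ∃ ρ ∈ Finset.Icc 1 p, ∃ R : Finset (Fin ρ → Fin g → ℕ),
      (∀ r ∈ R, (∀ i, r i ∈ Z) ∧ Gd k X ρ g r) ∧
      (Z.card : ℝ) ^ s ≤ A ^ s * 2 ^ g * ((X : ℝ) + 1) ^ (ρ * (s - ρ)) * R.card := by
    by_cases hsm : Z.card < 2 ^ (g + 1)
    · refine ⟨1, Finset.mem_Icc.mpr ⟨le_rfl, hp⟩, {fun _ => z0}, ?_, ?_⟩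
      · intro r hr
        rw [Finset.mem_singleton] at hr
        subst hr
        refine ⟨fun _ => hz0, fun _ => ⟨0, by omega⟩, ?_⟩
        rw [Matrix.det_unique]
        simp only [Matrix.of_apply, one_mul]
        have h1 : (X : ℝ) ≤ (z0 ⟨0, by omega⟩ : ℝ) := by exact_mod_cast ((hZm z0 hz0).1 _).1
        have h2' : (1 : ℝ) ≤ X := by exact_mod_cast (by omega : 1 ≤ X)
        rw [abs_of_nonneg (by positivity)]
        calc (X : ℝ) ^ (k - 1) ≤ (X : ℝ) ^ k := pow_le_pow_right₀ h2' (by omega)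
          _ ≤ _ := pow_le_pow_left₀ (by positivity) h1 k
      · rw [Finset.card_singleton, Nat.cast_one, mul_one]
        have h1 : (Z.card : ℝ) ≤ A := le_trans (by exact_mod_cast hsm.le) hA
        calc (Z.card : ℝ) ^ s ≤ A ^ s * 1 * 1 := by
              rw [mul_one, mul_one]
              exact pow_le_pow_left₀ (by positivity) h1 s
          _ ≤ _ := by
              gcongr
              · exact one_le_pow₀ (by norm_num)
              · exact one_le_pow₀ hX1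
    · push Not at hsm
      -- largest index
      have hex : ∃ ρ, 1 ≤ ρ ∧ ρ ≤ p ∧ 2 ^ (g + 1) * (X + 1) ^ (ρ - 1) ≤ Z.card ∧
          (Z.card : ℝ) ≤ A * ((X : ℝ) + 1) ^ ρ := by
        have h0 : ∃ n, ¬ (2 ^ (g + 1) * (X + 1) ^ n ≤ Z.card ∧ n < p) := ⟨p, by simp⟩
        set n := Nat.find h0 with hn
        have hn0 : n ≠ 0 := by
          intro h
          have := Nat.find_spec h0
          rw [← hn, h] at this
          apply this
          exact ⟨by simpa using hsm, by omega⟩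
        have hn1 := Nat.find_min h0 (m := n - 1) (by omega)
        rw [not_not] at hn1
        refine ⟨n, by omega, by omega, hn1.1, ?_⟩
        by_cases hng : n = p
        · rw [hng]; exact hB
        · have h5 := Nat.find_spec h0
          rw [← hn] at h5
          have h6 : ¬ (2 ^ (g + 1) * (X + 1) ^ n ≤ Z.card) := fun h => h5 ⟨h, by omega⟩
          push Not at h6
          calc (Z.card : ℝ) ≤ 2 ^ (g + 1) * ((X : ℝ) + 1) ^ n := by exact_mod_cast h6.le
            _ ≤ _ := by gcongr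
      obtain ⟨ρ, hρ1, hρg, hρ2, hρ3⟩ := hex
      obtain ⟨R, hR1, hR2⟩ := h2 g k X ρ Z (by omega) hk hρ1 (by omega) (fun z hz => (hZm z hz).1) hρ2
      refine ⟨ρ, Finset.mem_Icc.mpr ⟨hρ1, hρg⟩, R, hR2, ?_⟩
      exact calc1 g s ρ (Z.card : ℝ) ((X : ℝ) + 1) R.card A (by positivity) hX1 (by positivity) (by omega)
        (by omega) hA1 hρ3 hR1
  obtain ⟨ρ, hρ, R, hR, hle⟩ := key
  calc ENNReal.ofReal ((Z.card : ℝ) ^ s)
      ≤ ENNReal.ofReal (A ^ s * 2 ^ g * ((X : ℝ) + 1) ^ (ρ * (s - ρ)) * R.card) :=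
        ENNReal.ofReal_le_ofReal hle
    _ = ENNReal.ofReal (A ^ s * 2 ^ g * ((X : ℝ) + 1) ^ (ρ * (s - ρ))) * R.card := by
        rw [ENNReal.ofReal_mul (by positivity), ENNReal.ofReal_natCast]
    _ ≤ ENNReal.ofReal (A ^ s * 2 ^ g * ((X : ℝ) + 1) ^ (ρ * (s - ρ))) * RR k X g ρ T B := by
        gcongr
        exact hlow ρ R hR
    _ ≤ _ := Finset.single_le_sum (f := fun ρ => ENNReal.ofReal (A ^ s * 2 ^ g *
        ((X : ℝ) + 1) ^ (ρ * (s - ρ))) * RR k X g ρ T B) (fun _ _ => zero_le) hρ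

/-- the exponents -/
theorem expo0 (r n k s ρ : ℕ) (hr : 1 ≤ r) (hn : nr r ≤ n) (hks : k ≤ s)
    (h : r * k + k + 2 + (n - r) * (r + 1) ≤ r * s) (hρ : ρ ≤ n - r) :
    n ≤ s - k ∧ (ρ : ℝ) * (s - ρ) + n * ρ - ρ * (k - 1) ≤ n * ((s : ℝ) - k) - k - 2 := by
  have hnr : 96 * r ≤ nr r ∧ r * r + r ≤ nr r ∧ r + 1 ≤ nr r := by
    unfold nr
    have h2 : 1 ≤ 2 ^ (r + 2) := Nat.one_le_two_pow
    have h8 : 8 ≤ 2 ^ (r + 2) := by
      calc 8 = 2 ^ 3 := by norm_num
        _ ≤ _ := Nat.pow_le_pow_right (by norm_num) (by omega)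
    have a : 3 ≤ r + 2 := by omega
    refine ⟨?_, ?_, ?_⟩
    · calc 96 * r = 4 * r * 3 * 8 := by ring
        _ ≤ _ := by gcongr
    · calc r * r + r ≤ 4 * r * (r + 2) * 1 := by nlinarith
        _ ≤ _ := by gcongr
    · calc r + 1 ≤ 4 * r * (r + 2) * 1 := by nlinarith
        _ ≤ _ := by gcongr
  obtain ⟨hn1, hn2, hn3⟩ := hnr
  obtain ⟨u, rfl⟩ : ∃ u, s = k + u := ⟨s - k, by omega⟩
  obtain ⟨q, rfl⟩ : ∃ q, n = q + r := ⟨n - r, by omega⟩
  have e1 : q + r - r = q := by omega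
  rw [e1] at h hρ
  have h' : k + 2 + q * (r + 1) ≤ r * u := by nlinarith
  have hu : q + r ≤ u := by
    by_contra hc
    push Not at hc
    have : r * u ≤ r * (q + r) := Nat.mul_le_mul_left _ hc.le
    nlinarith
  refine ⟨by omega, ?_⟩
  have hρ' : (ρ : ℝ) ≤ q := by exact_mod_cast hρ
  have h'' : (k : ℝ) + 2 + q * (r + 1) ≤ r * u := by exact_mod_cast h'
  have hu' : (q : ℝ) + r ≤ u := by exact_mod_cast hu
  have hr0 : (0 : ℝ) ≤ r := by positivity
  have hq0 : (0 : ℝ) ≤ q := by positivity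
  push_cast
  nlinarith [mul_nonneg (sub_nonneg.2 hρ') (show (0 : ℝ) ≤ u - ρ + r + 1 by linarith)]

theorem expo (r n k s ρ X : ℕ) (A T : ℝ) (hr : 1 ≤ r) (hn : nr r ≤ n) (hks : k ≤ s) (hk : 2 ≤ k)
    (h : r * k + k + 2 + (n - r) * (r + 1) ≤ r * s) (hρ : ρ ≤ n - r) (hX : 2 ≤ X) (hT : 1 ≤ T) (hA : 0 ≤ A) :
    (A * T) ^ s * 2 ^ n * ((X : ℝ) + 1) ^ (ρ * (s - ρ)) *
      (((X : ℝ) + 1) ^ (n * ρ) * (6 ^ n * (2 * T) ^ ρ / (X : ℝ) ^ (ρ * (k - 1)))) ≤
    A ^ s * 2 ^ n * 2 ^ (n * s + n * n) * 6 ^ n * 2 ^ n * (T ^ (s + n) * (X : ℝ) ^ ((n : ℝ) * ((s : ℝ) - k) - k - 2)) := by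
  obtain ⟨hns, hex⟩ := expo0 r n k s ρ hr hn hks h hρ
  have hX0 : (0 : ℝ) < X := by exact_mod_cast (by omega : 0 < X)
  have hX1 : (1 : ℝ) ≤ X := by exact_mod_cast (by omega : 1 ≤ X)
  have hX2 : (X : ℝ) + 1 ≤ 2 * X := by linarith
  have hT0 : 0 < T := by linarith
  have e1 : ((X : ℝ) + 1) ^ (ρ * (s - ρ)) * ((X : ℝ) + 1) ^ (n * ρ) ≤ 2 ^ (n * s + n * n) *
      (X : ℝ) ^ ((ρ : ℝ) * (s - ρ) + n * ρ) := by
    rw [← pow_add]
    calc ((X : ℝ) + 1) ^ (ρ * (s - ρ) + n * ρ) ≤ (2 * X) ^ (ρ * (s - ρ) + n * ρ) := by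
          gcongr
      _ = 2 ^ (ρ * (s - ρ) + n * ρ) * (X : ℝ) ^ (ρ * (s - ρ) + n * ρ) := mul_pow _ _ _
      _ = 2 ^ (ρ * (s - ρ) + n * ρ) * (X : ℝ) ^ ((ρ : ℝ) * (s - ρ) + n * ρ) := by
          congr 1
          rw [← Real.rpow_natCast]
          congr 1
          rw [Nat.cast_add, Nat.cast_mul, Nat.cast_mul, Nat.cast_sub (by omega)]
      _ ≤ _ := by
          gcongr
          · norm_num
          · omega
          · omega
          · omega
  have e4 : (X : ℝ) ^ (ρ * (k - 1)) = (X : ℝ) ^ ((ρ : ℝ) * (k - 1)) := by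
    rw [← Real.rpow_natCast]
    congr 1
    rw [Nat.cast_mul, Nat.cast_sub (by omega), Nat.cast_one]
  have e5 : (X : ℝ) ^ ((ρ : ℝ) * (s - ρ) + n * ρ) / (X : ℝ) ^ ((ρ : ℝ) * (k - 1)) ≤
      (X : ℝ) ^ ((n : ℝ) * ((s : ℝ) - k) - k - 2) := by
    rw [← Real.rpow_sub hX0]
    apply Real.rpow_le_rpow_of_exponent_le hX1
    exact hex
  have e6 : (2 * T) ^ ρ ≤ 2 ^ n * T ^ n := by
    rw [← mul_pow]
    exact pow_le_pow_right₀ (by linarith) (by omega)
  calc (A * T) ^ s * 2 ^ n * ((X : ℝ) + 1) ^ (ρ * (s - ρ)) *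
      (((X : ℝ) + 1) ^ (n * ρ) * (6 ^ n * (2 * T) ^ ρ / (X : ℝ) ^ (ρ * (k - 1))))
      = A ^ s * T ^ s * 2 ^ n * (((X : ℝ) + 1) ^ (ρ * (s - ρ)) * ((X : ℝ) + 1) ^ (n * ρ)) *
        (6 ^ n * (2 * T) ^ ρ / (X : ℝ) ^ ((ρ : ℝ) * (k - 1))) := by
        rw [e4]; ring
    _ ≤ A ^ s * T ^ s * 2 ^ n * (2 ^ (n * s + n * n) * (X : ℝ) ^ ((ρ : ℝ) * (s - ρ) + n * ρ)) *
        (6 ^ n * (2 ^ n * T ^ n) / (X : ℝ) ^ ((ρ : ℝ) * (k - 1))) := by
        gcongr
    _ = A ^ s * 2 ^ n * 2 ^ (n * s + n * n) * 6 ^ n * 2 ^ n * (T ^ (s + n) *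
        ((X : ℝ) ^ ((ρ : ℝ) * (s - ρ) + n * ρ) / (X : ℝ) ^ ((ρ : ℝ) * (k - 1)))) := by
        rw [pow_add T]; ring
    _ ≤ _ := by gcongr

theorem GD_nonneg (n k X : ℕ) (γ : Fin n → ℝ) : 0 ≤ GD n k X γ := by
  unfold GD; exact Finset.sum_nonneg fun x _ => (Real.exp_pos _).le

theorem UD_nonneg (n k X : ℕ) (T : ℝ) (γ : Fin n → ℝ) : 0 ≤ UD n k X T γ := by
  unfold UD; exact Nat.cast_nonneg _

theorem GD_le (n k X : ℕ) (T : ℝ) (hT : 0 ≤ T) (γ : Fin n → ℝ) :
    GD n k X γ ≤ UD n k X T γ + ((X : ℝ) + 1) ^ n * Real.exp (-(2 * Real.pi ^ 2 * T ^ 2)) := by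
  classical
  have hcard : ((Fintype.piFinset (fun _ : Fin n => Finset.Icc X (2 * X))).card : ℝ) = ((X : ℝ) + 1) ^ n := by
    rw [Fintype.card_piFinset]
    simp only [Nat.card_Icc, Finset.prod_const, Finset.card_univ, Fintype.card_fin]
    have : 2 * X + 1 - X = X + 1 := by omega
    rw [this]; push_cast; rfl
  have h1 : GD n k X γ ≤ ∑ x ∈ Fintype.piFinset (fun _ : Fin n => Finset.Icc X (2 * X)),
      ((if (|∑ j, γ j * (x j : ℝ) ^ k| ≤ T) then (1 : ℝ) else 0) +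
        Real.exp (-(2 * Real.pi ^ 2 * T ^ 2))) := by
    unfold GD
    apply Finset.sum_le_sum
    intro x _
    split_ifs with h
    · have : Real.exp (-(2 * Real.pi ^ 2 * (∑ j, γ j * (x j : ℝ) ^ k) ^ 2)) ≤ 1 := by
        apply Real.exp_le_one_iff.2
        have : 0 ≤ 2 * Real.pi ^ 2 * (∑ j, γ j * (x j : ℝ) ^ k) ^ 2 := by positivity
        linarith
      have h2 := Real.exp_pos (-(2 * Real.pi ^ 2 * T ^ 2))
      linarith
    · push Not at h
      rw [zero_add]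
      apply Real.exp_le_exp.2
      have h2 : T ^ 2 ≤ (∑ j, γ j * (x j : ℝ) ^ k) ^ 2 := by
        rw [← sq_abs (∑ j, γ j * (x j : ℝ) ^ k)]
        nlinarith
      have h5 : 0 ≤ 2 * Real.pi ^ 2 := by positivity
      have := mul_le_mul_of_nonneg_left h2 h5
      linarith
  refine h1.trans (le_of_eq ?_)
  rw [Finset.sum_add_distrib, Finset.sum_const, nsmul_eq_mul, hcard]
  congr 1
  unfold UD
  rw [Finset.natCast_card_filter]

theorem dkey (h1 : S_DSUP) (h2 : S_GREEDY) (h3 : S_DMEASQ) : S_DKEY := by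
  intro r m k s hr hrk hnr hks hineq
  obtain ⟨C, hC, X0, hX0⟩ := h1 r m k hr hrk hnr
  set n := 2 * m with hn
  have hrn : r + 1 ≤ n := by
    refine le_trans ?_ hnr
    unfold nr
    have h2 : 1 ≤ 2 ^ (r + 2) := Nat.one_le_two_pow
    calc r + 1 ≤ 4 * r * (r + 2) * 1 := by nlinarith
      _ ≤ _ := by gcongr
  have hu := (expo0 r n k s 0 hr hnr hks hineq (by omega)).1
  set A : ℝ := 2 ^ (n + 1) + C with hA
  have hA0 : 0 < A := by positivity
  set K : ℝ := A ^ s * 2 ^ n * 2 ^ (n * s + n * n) * 6 ^ n * 2 ^ n with hK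
  have hK0 : 0 < K := by positivity
  set E : ℝ := 2 ^ s * (n * K) + 2 ^ s * 6 ^ n with hE
  have hE0 : 0 < E := by positivity
  have hlo : ∀ᶠ X : ℕ in Filter.atTop, E * Real.log X ^ (s + n) ≤ X := by
    have h := (Real.isLittleO_pow_log_id_atTop (n := s + n)).bound (inv_pos.2 hE0)
    have h' := (tendsto_natCast_atTop_atTop (R := ℝ)).eventually h
    filter_upwards [h', Filter.eventually_ge_atTop 1] with X hX hX1
    have hX1' : (1 : ℝ) ≤ X := by exact_mod_cast hX1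
    have hl : 0 ≤ Real.log X := Real.log_nonneg hX1'
    rw [Real.norm_of_nonneg (by positivity), id, Real.norm_of_nonneg (by positivity)] at hX
    calc E * Real.log X ^ (s + n) ≤ E * (E⁻¹ * X) := by gcongr
      _ = X := by field_simp
  obtain ⟨X1, hX1⟩ := Filter.eventually_atTop.1 hlo
  refine ⟨max (max X0 X1) (max 3 ⌈Real.exp n⌉₊), ?_⟩
  intro X hX
  have hXa : X0 ≤ X := ((le_max_left _ _).trans (le_max_left _ _)).trans hX
  have hXa' : X1 ≤ X := ((le_max_right _ _).trans (le_max_left _ _)).trans hX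
  have hXb : 3 ≤ X := ((le_max_left _ _).trans (le_max_right _ _)).trans hX
  have hXc : Real.exp n ≤ X :=
    Nat.ceil_le.1 (((le_max_right _ _).trans (le_max_right _ _)).trans hX)
  have hX3 : (3 : ℝ) ≤ X := by exact_mod_cast hXb
  have hX0' : (0 : ℝ) < X := by linarith
  set T : ℝ := Real.log X with hT
  have hT1 : 1 ≤ T := by
    rw [hT, Real.le_log_iff_exp_le hX0']
    have := Real.exp_one_lt_d9
    linarith
  have hTn : (n : ℝ) ≤ T := by
    rw [hT, Real.le_log_iff_exp_le hX0']; exact hXc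
  -- the tail is at most 1
  have htail : ((X : ℝ) + 1) ^ n * Real.exp (-(2 * Real.pi ^ 2 * T ^ 2)) ≤ 1 := by
    have e1 : ((X : ℝ) + 1) ≤ Real.exp (2 * T) := by
      have : Real.exp (2 * T) = (X : ℝ) ^ 2 := by
        rw [two_mul, Real.exp_add, hT, Real.exp_log hX0']; ring
      rw [this]; nlinarith
    have e2 : ((X : ℝ) + 1) ^ n ≤ Real.exp (2 * T * n) := by
      calc ((X : ℝ) + 1) ^ n ≤ (Real.exp (2 * T)) ^ n := pow_le_pow_left₀ (by positivity) e1 _
        _ = _ := by rw [← Real.exp_nat_mul]; congr 1; ring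
    calc _ ≤ Real.exp (2 * T * n) * Real.exp (-(2 * Real.pi ^ 2 * T ^ 2)) :=
          mul_le_mul_of_nonneg_right e2 (Real.exp_pos _).le
      _ = Real.exp (2 * T * n - 2 * Real.pi ^ 2 * T ^ 2) := by rw [← Real.exp_add]; congr 1
      _ ≤ 1 := by
        apply Real.exp_le_one_iff.2
        have hpi : 1 ≤ Real.pi ^ 2 := by nlinarith [Real.pi_gt_three]
        have h3 : T * n ≤ T * T := mul_le_mul_of_nonneg_left hTn (by linarith)
        have h4 : T * T ≤ Real.pi ^ 2 * T ^ 2 := by nlinarith [sq_nonneg T]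
        nlinarith
  set S : Set (Fin n → ℝ) := {γ : Fin n → ℝ | ∀ j, (X : ℝ) ^ (-(k : ℝ) + r) ≤ |γ j|} with hS
  -- pointwise bound
  have hpt : ∀ γ : Fin n → ℝ,
      S.indicator (fun γ => ENNReal.ofReal ((∏ j, qq (γ j)) * GD n k X γ ^ s)) γ ≤
        ∑ ρ ∈ Finset.Icc 1 (n - r), ENNReal.ofReal (2 ^ s) * (ENNReal.ofReal ((A * T) ^ s * 2 ^ n *
          ((X : ℝ) + 1) ^ (ρ * (s - ρ))) * (Q n γ * RR k X n ρ T γ)) + ENNReal.ofReal (2 ^ s) * Q n γ := by
    intro γ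
    by_cases hγ : γ ∈ S
    · rw [Set.indicator_of_mem hγ]
      have hq : 0 ≤ ∏ j, qq (γ j) := Finset.prod_nonneg fun j _ => qq_nonneg _
      have hV := UD_nonneg n k X T γ
      have hg : GD n k X γ ≤ UD n k X T γ + 1 := by
        have := GD_le n k X T (by linarith) γ
        linarith
      have hg2 : GD n k X γ ^ s ≤ 2 ^ s * (UD n k X T γ ^ s + 1) := by
        calc GD n k X γ ^ s ≤ (UD n k X T γ + 1) ^ s :=
              pow_le_pow_left₀ (GD_nonneg _ _ _ _) hg s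
          _ ≤ 2 ^ (s - 1) * (UD n k X T γ ^ s + 1 ^ s) := add_pow_le hV zero_le_one s
          _ ≤ 2 ^ s * (UD n k X T γ ^ s + 1) := by
            rw [one_pow]
            apply mul_le_mul_of_nonneg_right _ (by positivity)
            exact pow_le_pow_right₀ (by norm_num) (by omega)
      have hsup : UD n k X T γ ≤ (A * T) * ((X : ℝ) + 1) ^ (n - r) := by
        have h5 := hX0 X γ hXa hγ
        have h6 : (X : ℝ) ^ ((2 * (m : ℝ)) - r) = (X : ℝ) ^ (n - r) := by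
          rw [← Real.rpow_natCast, Nat.cast_sub (by omega)]
          congr 1
          rw [hn]; push_cast; ring
        have h7 : (X : ℝ) ^ (n - r) ≤ ((X : ℝ) + 1) ^ (n - r) := by
          gcongr; linarith
        have h8 : C * T ≤ A * T := by
          gcongr
          rw [hA]
          have : (0 : ℝ) < 2 ^ (n + 1) := by positivity
          linarith
        calc UD n k X T γ ≤ C * T * (X : ℝ) ^ (n - r) := by
              exact h5
          _ ≤ _ := by gcongr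
      have hpo := point h2 n k s X (n - r) T (A * T) (by omega) (by omega) (by omega) (by omega) (by omega)
        (by
          have : (0 : ℝ) < 2 ^ (n + 1) := by positivity
          nlinarith) γ hsup
      calc ENNReal.ofReal ((∏ j, qq (γ j)) * GD n k X γ ^ s)
          ≤ ENNReal.ofReal ((∏ j, qq (γ j)) * (2 ^ s * (UD n k X T γ ^ s + 1))) :=
            ENNReal.ofReal_le_ofReal (mul_le_mul_of_nonneg_left hg2 hq)
        _ = ENNReal.ofReal (2 ^ s) * (Q n γ * ENNReal.ofReal (UD n k X T γ ^ s)) +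
            ENNReal.ofReal (2 ^ s) * Q n γ := by
            unfold Q
            rw [← ENNReal.ofReal_mul hq, ← ENNReal.ofReal_mul (by positivity),
              ← ENNReal.ofReal_mul (by positivity), ← ENNReal.ofReal_add (by positivity) (by positivity)]
            congr 1
            ring
        _ ≤ ENNReal.ofReal (2 ^ s) * (Q n γ * ∑ ρ ∈ Finset.Icc 1 (n - r),
              ENNReal.ofReal ((A * T) ^ s * 2 ^ n * ((X : ℝ) + 1) ^ (ρ * (s - ρ))) * RR k X n ρ T γ) +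
            ENNReal.ofReal (2 ^ s) * Q n γ := by
            gcongr
        _ = _ := by
            rw [Finset.mul_sum, Finset.mul_sum]
            congr 1
            apply Finset.sum_congr rfl
            intro ρ _
            ring
    · rw [Set.indicator_of_notMem hγ]
      exact zero_le
  set P : ℝ := (X : ℝ) ^ ((n : ℝ) * ((s : ℝ) - k) - k - 2) with hP
  have hP1 : 1 ≤ P := by
    have h5 := (expo0 r n k s 0 hr hnr hks hineq (by omega)).2
    apply Real.one_le_rpow (by linarith)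
    push_cast at h5
    linarith
  have hTp : 1 ≤ T ^ (s + n) := one_le_pow₀ hT1
  have hmQR : ∀ ρ, Measurable fun γ => Q n γ * RR k X n ρ T γ := fun ρ => (Q_meas n).mul (measurable_RR _ _ _ _ _)
  calc ∫⁻ γ : Fin n → ℝ, S.indicator
        (fun γ => ENNReal.ofReal ((∏ j, qq (γ j)) * GD n k X γ ^ s)) γ
      ≤ ∫⁻ γ : Fin n → ℝ, (∑ ρ ∈ Finset.Icc 1 (n - r), ENNReal.ofReal (2 ^ s) * (ENNReal.ofReal ((A * T) ^ s * 2 ^ n *
          ((X : ℝ) + 1) ^ (ρ * (s - ρ))) * (Q n γ * RR k X n ρ T γ)) + ENNReal.ofReal (2 ^ s) * Q n γ) :=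
        lintegral_mono hpt
    _ = ∑ ρ ∈ Finset.Icc 1 (n - r), ENNReal.ofReal (2 ^ s) * (ENNReal.ofReal ((A * T) ^ s * 2 ^ n *
          ((X : ℝ) + 1) ^ (ρ * (s - ρ))) * ∫⁻ γ, Q n γ * RR k X n ρ T γ) +
          ENNReal.ofReal (2 ^ s) * ∫⁻ γ, Q n γ := by
        rw [lintegral_add_right _ ((Q_meas n).const_mul _), lintegral_const_mul' _ _ ENNReal.ofReal_ne_top,
          lintegral_finsetSum]
        · congr 1
          apply Finset.sum_congr rfl
          intro ρ _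
          rw [lintegral_const_mul' _ _ ENNReal.ofReal_ne_top, lintegral_const_mul' _ _ ENNReal.ofReal_ne_top]
        · intro ρ _
          exact ((hmQR ρ).const_mul _).const_mul _
    _ ≤ ∑ ρ ∈ Finset.Icc 1 (n - r), ENNReal.ofReal (2 ^ s * (K * (T ^ (s + n) * P))) +
          ENNReal.ofReal (2 ^ s * 6 ^ n) := by
        gcongr with ρ hρ
        · rw [Finset.mem_Icc] at hρ
          calc ENNReal.ofReal (2 ^ s) * (ENNReal.ofReal ((A * T) ^ s * 2 ^ n *
                ((X : ℝ) + 1) ^ (ρ * (s - ρ))) * ∫⁻ γ, Q n γ * RR k X n ρ T γ)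
              ≤ ENNReal.ofReal (2 ^ s) * (ENNReal.ofReal ((A * T) ^ s * 2 ^ n *
                ((X : ℝ) + 1) ^ (ρ * (s - ρ))) * ENNReal.ofReal (((X : ℝ) + 1) ^ (n * ρ) *
                  (6 ^ n * (2 * T) ^ ρ / (X : ℝ) ^ (ρ * (k - 1))))) := by
                gcongr
                exact int_RR h3 k X n ρ T (by linarith) (by omega)
            _ = ENNReal.ofReal (2 ^ s * ((A * T) ^ s * 2 ^ n * ((X : ℝ) + 1) ^ (ρ * (s - ρ)) *
                (((X : ℝ) + 1) ^ (n * ρ) * (6 ^ n * (2 * T) ^ ρ / (X : ℝ) ^ (ρ * (k - 1)))))) := by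
                rw [← ENNReal.ofReal_mul (by positivity), ← ENNReal.ofReal_mul (by positivity)]
            _ ≤ _ := by
                apply ENNReal.ofReal_le_ofReal
                apply mul_le_mul_of_nonneg_left _ (by positivity)
                exact expo r n k s ρ X A T hr hnr hks (by omega) hineq hρ.2 (by omega) hT1 hA0.le
        · rw [ENNReal.ofReal_mul (by positivity)]
          gcongr
          exact int_Q h3 n
    _ ≤ ENNReal.ofReal (2 ^ s * (n * K) * (T ^ (s + n) * P) + 2 ^ s * 6 ^ n) := by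
        rw [Finset.sum_const, Nat.card_Icc, nsmul_eq_mul, ← ENNReal.ofReal_natCast, ← ENNReal.ofReal_mul (by positivity),
          ← ENNReal.ofReal_add (by positivity) (by positivity)]
        apply ENNReal.ofReal_le_ofReal
        have h9 : ((n - r + 1 - 1 : ℕ) : ℝ) ≤ n := by exact_mod_cast (by omega : n - r + 1 - 1 ≤ n)
        calc _ ≤ (n : ℝ) * (2 ^ s * (K * (T ^ (s + n) * P))) + 2 ^ s * 6 ^ n := by gcongr
          _ = _ := by ring
    _ ≤ ENNReal.ofReal (E * T ^ (s + n) * P) := by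
        apply ENNReal.ofReal_le_ofReal
        have h10 : 1 ≤ T ^ (s + n) * P := by nlinarith
        have h11 : (2 : ℝ) ^ s * 6 ^ n * 1 ≤ 2 ^ s * 6 ^ n * (T ^ (s + n) * P) := by gcongr
        rw [hE]
        nlinarith
    _ ≤ ENNReal.ofReal (X * P) := by
        apply ENNReal.ofReal_le_ofReal
        gcongr
        exact hX1 X hXa'
    _ = _ := by
        congr 1
        rw [hP]
        nth_rewrite 1 [← Real.rpow_one (X : ℝ)]
        rw [← Real.rpow_add hX0']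
        congr 1
        rw [hn]; push_cast; ring

end Pool.Agent.N933.KW
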