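import Pool.Agent.N661.QB.Stm

/-!
# QB/UI (helper933 for project QB of helper661): uniform integrability of the squares
-/

set_option autoImplicit false
open MeasureTheory Filter Topology Complex ProbabilityTheory

namespace Pool.Agent.N933.QBUI

open Pool.Agent.N661.BR (MW)
open Pool.Agent.N661.BH (loc LocalLaws)
open Pool.Agent.N661.QB
open Pool.Agent.N814 (BHM.mass)

theorem Y_zero (lam : ℝ) (u : ℂ → ℝ) (p : ℂ × (ℝ × Bool)) : Y lam u 0 p = u p.1 := by
  have h : rot p.2 0 = 0 := by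
    unfold rot
    split_ifs <;> simp
  unfold Y loc
  rw [h, mul_zero, add_zero]

theorem int_first {Ω : Set ℂ} (hm : 0 < BHM.mass Ω) [IsProbabilityMeasure (Pool.Agent.N814.BHM.Pz Ω)]
    (lam : ℝ) (u : ℂ → ℝ) (g : ℝ → ℝ) :
    ∫ p, g (Y lam u 0 p) ∂(Pool.Agent.N814.BHM.P Ω) =
      (∫ z in Ω, g (u z) / z.im ^ 2) / BHM.mass Ω := by
  have h1 : ∫ p, g (Y lam u 0 p) ∂(Pool.Agent.N814.BHM.P Ω) =
      ∫ z, g (u z) ∂(Pool.Agent.N814.BHM.Pz Ω) := by
    simp_rw [Y_zero]
    unfold Pool.Agent.N814.BHM.P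
    rw [integral_fun_fst (fun z => g (u z))]
    simp
  rw [h1, Pool.Agent.N814.BHM.int_Pz hm, smul_eq_mul, div_eq_inv_mul]
  congr 1
  apply integral_congr_ae
  refine Eventually.of_forall fun z => ?_
  show (1 / z.im ^ 2) • g (u z) = g (u z) / z.im ^ 2
  rw [smul_eq_mul]; ring

/-- **QB/UI** -/
theorem UI : S_FDD → S_UI := by
  intro hFDD Ω lam u hE μ hμ hL h1 ε hε
  have hm : 0 < BHM.mass Ω := Pool.Agent.N814.BHM.mass_pos hE.op (fun z hz => hE.sub hz) hE.ne hE.int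
  haveI := Pool.Agent.N814.BHM.Pz_prob hE.op (fun z hz => hE.sub hz) hE.ne hE.int
  set A := BHM.mass Ω with hA
  -- the limit
  have hint : Integrable (fun f : MW => f 0 ^ 2) μ := by
    by_contra h
    rw [integral_undef h] at h1
    exact zero_ne_one h1
  have hlimN : Tendsto (fun N : ℕ => ∫ f : MW, min (f 0 ^ 2) ((N : ℝ) ^ 2) ∂μ) atTop (𝓝 1) := by
    rw [← h1]
    refine tendsto_integral_of_dominated_convergence (fun f => f 0 ^ 2) ?_ hint ?_ ?_
    · intro N
      exact (hint.inf (integrable_const ((N : ℝ) ^ 2))).aestronglyMeasurable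
    · intro N
      refine Eventually.of_forall fun f => ?_
      rw [Real.norm_of_nonneg (le_min (sq_nonneg _) (sq_nonneg _))]
      exact min_le_left _ _
    · refine Eventually.of_forall fun f => ?_
      refine tendsto_const_nhds.congr' ?_
      obtain ⟨N0, hN0⟩ := exists_nat_ge |f 0|
      filter_upwards [eventually_ge_atTop N0] with N hN
      rw [min_eq_left]
      rw [← sq_abs]
      exact pow_le_pow_left₀ (abs_nonneg _) (hN0.trans (by exact_mod_cast hN)) 2
  have hε' : (1 : ℝ) - ε / (4 * A) < 1 := by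
    have : 0 < ε / (4 * A) := by positivity
    linarith
  obtain ⟨N, hN⟩ := (hlimN.eventually (lt_mem_nhds hε')).exists
  set e := ∫ f : MW, min (f 0 ^ 2) ((N : ℝ) ^ 2) ∂μ with he
  refine ⟨2 * N, fun M hM => ?_⟩
  have hN0 : (0 : ℝ) ≤ N := Nat.cast_nonneg N
  -- convergence of the truncated means
  have hb := hFDD Ω lam u hE μ hμ hL 1 (fun _ => 0) (fun x => min (x 0 ^ 2) ((N : ℝ) ^ 2))
    (by fun_prop) ⟨(N : ℝ) ^ 2, fun x => by
      rw [abs_of_nonneg (le_min (sq_nonneg _) (sq_nonneg _))]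
      exact min_le_right _ _⟩
  have hb' : Tendsto (fun n => (∫ z in Ω, min (u n z ^ 2) ((N : ℝ) ^ 2) / z.im ^ 2) / A) atTop
      (𝓝 e) := by
    refine hb.congr fun n => ?_
    exact int_first hm (lam n) (u n) (fun s => min (s ^ 2) ((N : ℝ) ^ 2))
  have ha : Tendsto (fun n => (∫ z in Ω, u n z ^ 2 / z.im ^ 2) / A) atTop (𝓝 1) := hE.ms.2
  have hab := (ha.sub hb').const_mul (2 * A)
  have hlt : 2 * A * (1 - e) < ε := by
    have h3 : 1 - e < ε / (4 * A) := by linarith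
    have h4 : 2 * A * (1 - e) < 2 * A * (ε / (4 * A)) := by
      apply mul_lt_mul_of_pos_left h3; positivity
    have h5 : 2 * A * (ε / (4 * A)) = ε / 2 := by field_simp; norm_num
    linarith
  filter_upwards [hab.eventually (gt_mem_nhds hlt)] with n hn
  have hi1 : IntegrableOn (fun z : ℂ => u n z ^ 2 / z.im ^ 2) Ω := hE.ms.1 n
  have hi2 : IntegrableOn (fun z : ℂ => min (u n z ^ 2) ((N : ℝ) ^ 2) / z.im ^ 2) Ω := by
    have h := hi1.inf (hE.int.const_mul ((N : ℝ) ^ 2))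
    refine h.congr (Eventually.of_forall fun z => ?_)
    show min (u n z ^ 2 / z.im ^ 2) ((N : ℝ) ^ 2 * (1 / z.im ^ 2)) = _
    rw [mul_one_div, min_div_div_right (sq_nonneg _)]
  have hle : ∫ z in Ω, (if M < |u n z| then u n z ^ 2 else 0) / z.im ^ 2 ≤
      ∫ z in Ω, 2 * (u n z ^ 2 / z.im ^ 2 - min (u n z ^ 2) ((N : ℝ) ^ 2) / z.im ^ 2) := by
    refine integral_mono_of_nonneg (Eventually.of_forall fun z => ?_)
      ((hi1.sub hi2).const_mul 2) (Eventually.of_forall fun z => ?_)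
    · show 0 ≤ (if M < |u n z| then u n z ^ 2 else 0) / z.im ^ 2
      split_ifs
      · positivity
      · simp
    · show (if M < |u n z| then u n z ^ 2 else 0) / z.im ^ 2 ≤
        2 * (u n z ^ 2 / z.im ^ 2 - min (u n z ^ 2) ((N : ℝ) ^ 2) / z.im ^ 2)
      rw [← sub_div, ← mul_div_assoc]
      apply div_le_div_of_nonneg_right _ (sq_nonneg _)
      split_ifs with h
      · have h6 : min (u n z ^ 2) ((N : ℝ) ^ 2) ≤ (N : ℝ) ^ 2 := min_le_right _ _
        have h7 : 2 * (N : ℝ) < |u n z| := lt_of_le_of_lt hM h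
        have h8 : (2 * (N : ℝ)) ^ 2 ≤ |u n z| ^ 2 := pow_le_pow_left₀ (by positivity) h7.le 2
        rw [sq_abs] at h8
        nlinarith
      · have h6 : min (u n z ^ 2) ((N : ℝ) ^ 2) ≤ u n z ^ 2 := min_le_left _ _
        linarith
  refine hle.trans ?_
  rw [integral_const_mul, integral_sub hi1 hi2]
  have h9 : 2 * A * ((∫ z in Ω, u n z ^ 2 / z.im ^ 2) / A -
      (∫ z in Ω, min (u n z ^ 2) ((N : ℝ) ^ 2) / z.im ^ 2) / A) =
      2 * ((∫ z in Ω, u n z ^ 2 / z.im ^ 2) -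
      ∫ z in Ω, min (u n z ^ 2) ((N : ℝ) ^ 2) / z.im ^ 2) := by
    field_simp
  rw [h9] at hn
  exact hn.le

end Pool.Agent.N933.QBUI
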