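import Pool.Agent.N709.UM.Stm

/-!
# Project UM, leaf LOW: words of small weight do not represent `z` (helper933 for helper709)
-/

set_option autoImplicit false

universe u

namespace Pool.Agent.N933.UMLow

open Pool.Agent.N709.UM

variable {G : Type u} [Group G]

theorem ev_app (y : ℕ → G) (w w' : List (G ⊕ (ℕ × Bool))) :
    ev y (w ++ w') = ev y w * ev y w' := by
  induction w with
  | nil => simp [ev]
  | cons a w ih =>
    rcases a with g | ⟨j, s⟩
    · simp only [List.cons_append, ev, ih, mul_assoc]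
    · simp only [List.cons_append, ev, ih, mul_assoc]

theorem cnt_app {G : Type u} (j : ℕ) (w w' : List (G ⊕ (ℕ × Bool))) :
    cnt j (w ++ w') = cnt j w + cnt j w' := by
  induction w with
  | nil => simp [cnt]
  | cons a w ih =>
    rcases a with g | ⟨i, s⟩
    · simp only [List.cons_append, cnt, ih]
    · simp only [List.cons_append, cnt, ih, add_assoc]

theorem wt_app (ρ : G → ℝ) (ε : ℕ → ℝ) (w w' : List (G ⊕ (ℕ × Bool))) :
    wt ρ ε (w ++ w') = wt ρ ε w + wt ρ ε w' := by
  induction w with
  | nil => simp [wt]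
  | cons a w ih =>
    rcases a with g | ⟨i, s⟩
    · simp only [List.cons_append, wt, ih, add_assoc]
    · simp only [List.cons_append, wt, ih, add_assoc]

/-- inverse letters -/
def inv1 : G ⊕ (ℕ × Bool) → G ⊕ (ℕ × Bool)
  | Sum.inl g => Sum.inl g⁻¹
  | Sum.inr (j, s) => Sum.inr (j, !s)

/-- inverse words -/
def iw (w : List (G ⊕ (ℕ × Bool))) : List (G ⊕ (ℕ × Bool)) := (w.map inv1).reverse

theorem iw_cons (a : G ⊕ (ℕ × Bool)) (w : List (G ⊕ (ℕ × Bool))) :
    iw (a :: w) = iw w ++ [inv1 a] := by
  simp [iw]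

theorem ev_iw (y : ℕ → G) (w : List (G ⊕ (ℕ × Bool))) : ev y (iw w) = (ev y w)⁻¹ := by
  induction w with
  | nil => simp [iw, ev]
  | cons a w ih =>
    rw [iw_cons, ev_app, ih]
    rcases a with g | ⟨j, s⟩
    · simp [inv1, ev]
    · cases s <;> simp [inv1, ev]

theorem cnt_iw (j : ℕ) (w : List (G ⊕ (ℕ × Bool))) : cnt j (iw w) = cnt j w := by
  induction w with
  | nil => rfl
  | cons a w ih =>
    rw [iw_cons, cnt_app, ih]
    rcases a with g | ⟨i, s⟩
    · simp [inv1, cnt]
    · simp only [inv1, cnt]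
      omega

theorem wt_iw (ρ : G → ℝ) (hρ : PN ρ) (ε : ℕ → ℝ) (w : List (G ⊕ (ℕ × Bool))) :
    wt ρ ε (iw w) = wt ρ ε w := by
  induction w with
  | nil => rfl
  | cons a w ih =>
    rw [iw_cons, wt_app, ih]
    rcases a with g | ⟨i, s⟩
    · simp only [inv1, wt, hρ.inv]
      ring
    · simp only [inv1, wt]
      ring

theorem bel_iw {k : ℕ} {w : List (G ⊕ (ℕ × Bool))} (h : Bel k w) : Bel k (iw w) := by
  intro j s hj
  unfold iw at hj
  rw [List.mem_reverse, List.mem_map] at hj
  obtain ⟨a, ha, he⟩ := hj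
  rcases a with g | ⟨i, s'⟩
  · simp [inv1] at he
  · simp only [inv1, Sum.inr.injEq, Prod.mk.injEq] at he
    rw [← he.1]
    exact h i s' ha

theorem bel_cons {G : Type u} {k : ℕ} {a : G ⊕ (ℕ × Bool)} {w : List (G ⊕ (ℕ × Bool))}
    (h : Bel k (a :: w)) : Bel k w :=
  fun j s hj => h j s (List.mem_cons_of_mem _ hj)

theorem cnt_bel {G : Type u} {k j : ℕ} (hkj : k ≤ j) (w : List (G ⊕ (ℕ × Bool)))
    (h : Bel k w) : cnt j w = cnt k w := by
  induction w with
  | nil => rfl
  | cons a w ih =>
    have h1 := ih (bel_cons h)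
    rcases a with g | ⟨i, s⟩
    · exact h1
    · have h2 := h i s List.mem_cons_self
      simp only [cnt]
      rw [if_pos (by omega), if_pos (by omega), h1]

theorem noletter (ρ : G → ℝ) (hρ : PN ρ) (y : ℕ → G) (w : List (G ⊕ (ℕ × Bool)))
    (h : ∀ j s, (Sum.inr (j, s) : G ⊕ (ℕ × Bool)) ∉ w) : ρ (ev y w) ≤ wt ρ (fun _ => 0) w := by
  induction w with
  | nil =>
    simp only [ev, wt]
    exact hρ.one.le
  | cons a w ih =>
    have h1 := ih fun j s hj => h j s (List.mem_cons_of_mem _ hj)
    rcases a with g | ⟨i, s⟩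
    · simp only [ev, wt]
      exact (hρ.mul _ _).trans (by linarith)
    · exact absurd List.mem_cons_self (h i s)

theorem cnt_mem {G : Type u} {j : ℕ} {s : Bool} {w : List (G ⊕ (ℕ × Bool))}
    (h : (Sum.inr (j, s) : G ⊕ (ℕ × Bool)) ∈ w) : 1 ≤ cnt j w := by
  induction w with
  | nil => simp at h
  | cons a w ih =>
    rw [List.mem_cons] at h
    rcases h with h | h
    · rw [← h]
      simp only [cnt]
      rw [if_pos le_rfl]
      omega
    · have h1 := ih h
      rcases a with g | ⟨i, s'⟩
      · exact h1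
      · simp only [cnt]
        omega

theorem ex_bel {G : Type u} (K : ℕ) (w : List (G ⊕ (ℕ × Bool))) : ∃ k, K ≤ k ∧ Bel k w := by
  induction w with
  | nil => exact ⟨K, le_rfl, fun j s h => absurd h (by simp)⟩
  | cons a w ih =>
    obtain ⟨k, hk, hb⟩ := ih
    rcases a with g | ⟨i, s⟩
    · refine ⟨k, hk, fun j s hj => ?_⟩
      rw [List.mem_cons] at hj
      rcases hj with hj | hj
      · exact absurd hj (by simp)
      · exact hb j s hj
    · refine ⟨max k (i + 1), hk.trans (le_max_left _ _), fun j s' hj => ?_⟩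
      rw [List.mem_cons] at hj
      rcases hj with hj | hj
      · simp only [Sum.inr.injEq, Prod.mk.injEq] at hj
        rw [hj.1]
        exact lt_of_lt_of_le (Nat.lt_succ_self i) (le_max_right _ _)
      · exact lt_of_lt_of_le (hb j s' hj) (le_max_left _ _)

theorem low (hR : Pool.Agent.N709.UM.Rem.{u}) : Pool.Agent.N709.UM.Low.{u} := by
  intro G _ ρ hρ r _ y D t ht htk z K h3 h4 h5 w hw1 hw2 hw3 hw4
  obtain ⟨S, hS⟩ : ∃ S : ℕ → ℝ, S = fun k => ∑ j ∈ Finset.Ico K k, ((j : ℝ) + 1) * t j := ⟨_, rfl⟩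
  have hS0 : ∀ k, 0 ≤ S k := by
    intro k
    rw [hS]
    exact Finset.sum_nonneg fun j _ => mul_nonneg (by positivity) (ht j)
  have hS1 : ∀ k, K ≤ k → S (k + 1) = S k + ((k : ℝ) + 1) * t k := by
    intro k hk
    rw [hS]
    exact Finset.sum_Ico_succ_top hk _
  have hSK : S K = 0 := by
    rw [hS]
    simp
  have hS2 : ∀ k, K ≤ k → S k ≤ (4 / 3) * ((1 / 4 : ℝ) ^ K - (1 / 4) ^ k) := by
    intro k hk
    induction k, hk using Nat.le_induction with
    | base => rw [hSK, sub_self, mul_zero]
    | succ k hk ih =>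
      rw [hS1 k hk]
      have h1 := htk k
      have h2 : (1 / 4 : ℝ) ^ (k + 1) = (1 / 4) ^ k * (1 / 4) := pow_succ _ _
      rw [h2]
      linarith
  have claim : ∀ k, K ≤ k → ∀ w : List (G ⊕ (ℕ × Bool)), Bel k w → (∀ j, j < K → cnt j w = 0) →
      (∀ j, K ≤ j → cnt j w ≤ j - 1) → wt ρ (fun _ => 0) w + S k < r →
      wt ρ (fun _ => 0) w + S k < ρ z → ev y w ≠ z := by
    intro k hk
    induction k, hk using Nat.le_induction with
    | base =>
      intro w hb hc _ _ hz he
      have h1 := noletter ρ hρ y w (by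
        intro j s hj
        have h1 := hb j s hj
        have h2 := cnt_mem hj
        rw [hc j h1] at h2
        omega)
      rw [he] at h1
      rw [hSK] at hz
      linarith
    | succ k hk ih =>
      intro w hb hc1 hc2 hr1 hz1 he
      have hck := hc2 k hk
      have hckr : ((cnt k w : ℕ) : ℝ) ≤ k := by exact_mod_cast (by omega : cnt k w ≤ k)
      have htk0 := ht k
      have hSk := hS0 k
      rw [hS1 k hk] at hr1 hz1
      have hkt : ((cnt k w : ℕ) : ℝ) * t k ≤ (k : ℝ) * t k := mul_le_mul_of_nonneg_right hckr htk0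
      have hex : ((k : ℝ) + 1) * t k = (k : ℝ) * t k + t k := by ring
      rw [hex] at hr1 hz1
      obtain ⟨w', M, g1, g2, g3, g4, g5⟩ := hR G ρ hρ r (t k) htk0 y k (D k)
        (fun w h1 h2 h3' => (h3 k hk w h1 h2 h3').1) (h4 k) w hb (by omega) (by
          show wt ρ (fun _ => 0) w + (k : ℝ) * t k < r
          linarith)
      have g4' : wt ρ (fun _ => 0) w' ≤ wt ρ (fun _ => 0) w + (cnt k w : ℝ) * t k := g4
      have hr2 : wt ρ (fun _ => 0) w' < r := by linarith
      have hM : y k ^ M ∈ D k := by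
        have h6 := (h3 k hk (iw w') (bel_iw g1) (by rw [cnt_iw]; omega) (by
          show wt ρ (fun _ => 0) (iw w') < r
          rw [wt_iw ρ hρ]
          exact hr2)).2
        rw [ev_iw, ← he, g5, inv_mul_cancel_left] at h6
        exact h6
      have hc1' : ∀ j, j < K → cnt j w' = 0 := by
        intro j hj
        have h6 := g2 j (by omega)
        rw [hc1 j hj] at h6
        omega
      have hc2' : ∀ j, K ≤ j → cnt j w' ≤ j - 1 := by
        intro j hj
        rcases lt_or_ge j k with hjk | hjk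
        · exact (g2 j hjk).trans (hc2 j hj)
        · rw [cnt_bel hjk w' g1]
          omega
      by_cases hM0 : M = 0
      · rw [hM0, zpow_zero, mul_one] at g5
        exact ih w' g1 hc1' hc2' (by linarith) (by linarith) (g5.symm.trans he)
      · have hm1 : 1 ≤ M.natAbs := Int.natAbs_pos.2 hM0
        have hmk : M.natAbs ≤ k := by omega
        have hρM : ρ (y k ^ M) ≤ t k := by
          rcases Int.natAbs_eq M with h6 | h6
          · have e : y k ^ M = y k ^ M.natAbs := by
              rw [h6, zpow_natCast, Int.natAbs_natCast]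
            rcases h5 k M.natAbs hm1 hmk with h7 | h7
            · rw [e] at hM
              exact absurd hM h7.1
            · rw [e]
              exact h7
          · have e : y k ^ M = (y k ^ M.natAbs)⁻¹ := by
              rw [h6, zpow_neg, zpow_natCast, Int.natAbs_neg, Int.natAbs_natCast]
            rcases h5 k M.natAbs hm1 hmk with h7 | h7
            · rw [e] at hM
              exact absurd hM h7.2
            · rw [e, hρ.inv]
              exact h7
        have e1 : ev y (w' ++ [Sum.inl (y k ^ M)]) = z := by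
          rw [ev_app, ← he, g5]
          simp [ev]
        have e2 : ∀ j, cnt j (w' ++ [(Sum.inl (y k ^ M) : G ⊕ (ℕ × Bool))]) = cnt j w' := by
          intro j
          rw [cnt_app]
          simp [cnt]
        have e3 : wt ρ (fun _ => 0) (w' ++ [Sum.inl (y k ^ M)]) =
            wt ρ (fun _ => 0) w' + ρ (y k ^ M) := by
          rw [wt_app]
          simp [wt]
        refine ih (w' ++ [Sum.inl (y k ^ M)]) ?_ (fun j hj => by rw [e2]; exact hc1' j hj)
          (fun j hj => by rw [e2]; exact hc2' j hj) (by rw [e3]; linarith)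
          (by rw [e3]; linarith) e1
        intro j s hj
        rw [List.mem_append] at hj
        rcases hj with hj | hj
        · exact g1 j s hj
        · simp at hj
  obtain ⟨k, hk, hb⟩ := ex_bel K w
  have h6 := hS2 k hk
  have h7 : (0 : ℝ) < (1 / 4) ^ k := by positivity
  have h8 : (0 : ℝ) < (1 / 4) ^ K := by positivity
  have hw3' : wt ρ (fun _ => 0) w + 2 * (1 / 4 : ℝ) ^ K < r := hw3
  have hw4' : wt ρ (fun _ => 0) w + 2 * (1 / 4 : ℝ) ^ K < ρ z := hw4
  exact claim k hk w hb hw1 hw2 (by linarith) (by linarith)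

end Pool.Agent.N933.UMLow
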