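import Pool.Agent.N795.BV.Stm

/-!
# BV/LOC: the local theorem from the local inequality (helper933)
-/

set_option autoImplicit false

open Polynomial

namespace Pool.Agent.N795.BV

namespace Loc933

theorem prod_le {m : ℕ} (z : Fin (m + 1) → ℂ) (h : ∑ k, ‖z k‖ ^ 2 ≤ (m : ℝ) + 1) :
    ∏ k, ‖z k‖ ≤ 1 := by
  have h1 : (∏ k, ‖z k‖) ^ 2 ≤ 1 := by
    rw [← Finset.prod_pow]
    calc ∏ k, ‖z k‖ ^ 2 ≤ ∏ k, Real.exp (‖z k‖ ^ 2 - 1) := by
          apply Finset.prod_le_prod
          · intro k _; positivity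
          · intro k _
            have := Real.add_one_le_exp (‖z k‖ ^ 2 - 1)
            linarith
      _ = Real.exp (∑ k, (‖z k‖ ^ 2 - 1)) := (Real.exp_sum _ _).symm
      _ ≤ Real.exp 0 := by
          apply Real.exp_le_exp.2
          rw [Finset.sum_sub_distrib, Finset.sum_const, Finset.card_univ, Fintype.card_fin,
            nsmul_eq_mul, mul_one]
          push_cast
          linarith
      _ = 1 := Real.exp_zero
  have h2 : 0 ≤ ∏ k, ‖z k‖ := Finset.prod_nonneg fun k _ => norm_nonneg _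
  nlinarith

end Loc933


theorem loc (hP : S_PHI) (hS : S_SUMW) : S_LOC := by
  intro m hm
  obtain ⟨ε₁, hε₁, hphi⟩ := hP m hm
  refine ⟨min (1 / 2) (ε₁ / 2), by positivity, ?_⟩
  intro z w hRel hz0 hz2 hw k hk
  by_contra hcon
  push Not at hcon
  obtain ⟨i₀, hi₀⟩ := hcon
  set a : ℂ := z k with ha
  have hwle : ∀ i, ‖w i‖ ≤ 1 / 2 := fun i => (hw i).trans (min_le_left _ _)
  have hwle2 : ∀ i, ‖w i‖ ≤ ε₁ / 2 := fun i => (hw i).trans (min_le_right _ _)
  have hr : 1 / 2 ≤ ‖a‖ := by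
    have h1 := hk i₀
    have h2 := norm_sub_le (w i₀) a
    have h3 := hwle i₀
    linarith
  have hr0 : 0 < ‖a‖ := by linarith
  have ha0 : a ≠ 0 := norm_pos_iff.1 hr0
  have hm1 : ((m : ℂ) + 1) ≠ 0 := by
    have : ((m : ℂ) + 1) = ((m + 1 : ℕ) : ℂ) := by push_cast; ring
    rw [this]
    exact Nat.cast_ne_zero.2 (Nat.succ_ne_zero m)
  have hsw : ∑ i, w i = 0 := by
    have h1 := hS m z w hRel
    rw [hz0, mul_zero] at h1
    exact (mul_eq_zero.1 h1).resolve_left hm1
  have hphi' := hphi (fun i => w i / a) (by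
      intro i
      rw [norm_div, div_le_iff₀ hr0]
      have h1 := hwle2 i
      nlinarith) (by rw [← Finset.sum_div, hsw, zero_div])
    ⟨i₀, div_ne_zero hi₀ ha0⟩ ‖a‖ hr0 (by
      intro i
      rw [← norm_mul]
      have h1 : a * (1 - w i / a) = -(w i - a) := by field_simp; ring
      rw [h1, norm_neg]
      exact hk i)
  -- the fundamental theorem
  set P : ℂ[X] := ∏ k, (X - C (z k)) with hPdef
  have hd : ∀ t : ℝ, HasDerivAt (fun t : ℝ => P.eval ((t : ℂ) * a))
      (((m : ℂ) + 1) * a ^ (m + 1) * ∏ i, ((t : ℂ) - w i / a)) t := by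
    intro t
    have h0 : HasDerivAt (fun s : ℂ => s * a) (1 * a) (t : ℂ) :=
      (hasDerivAt_id' (t : ℂ)).mul_const a
    have h00 : HasDerivAt (fun s : ℂ => P.eval s) ((derivative P).eval ((t : ℂ) * a))
        ((fun s : ℂ => s * a) (t : ℂ)) := P.hasDerivAt ((t : ℂ) * a)
    have h1 : HasDerivAt (fun s : ℂ => P.eval (s * a)) ((derivative P).eval ((t : ℂ) * a) * (1 * a))
        (t : ℂ) := by
      have h000 := HasDerivAt.comp (h := fun s : ℂ => s * a) (h₂ := fun s : ℂ => P.eval s)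
        (t : ℂ) h00 h0
      exact h000
    have h2 := h1.comp_ofReal
    have h3 : (derivative P).eval ((t : ℂ) * a) * (1 * a) =
        ((m : ℂ) + 1) * a ^ (m + 1) * ∏ i, ((t : ℂ) - w i / a) := by
      have h4 : derivative P = C ((m : ℂ) + 1) * ∏ i, (X - C (w i)) := hRel
      rw [h4, eval_mul, eval_C, eval_prod]
      have h5 : ∀ i, eval ((t : ℂ) * a) (X - C (w i)) = a * ((t : ℂ) - w i / a) := by
        intro i
        rw [eval_sub, eval_X, eval_C]
        field_simp
      simp only [h5]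
      rw [Finset.prod_mul_distrib, Finset.prod_const, Finset.card_univ, Fintype.card_fin]
      ring
    rw [h3] at h2
    exact h2
  have hint : ∫ t in (0 : ℝ)..1, ((m : ℂ) + 1) * a ^ (m + 1) * ∏ i, ((t : ℂ) - w i / a) =
      P.eval (((1 : ℝ) : ℂ) * a) - P.eval (((0 : ℝ) : ℂ) * a) := by
    apply intervalIntegral.integral_eq_sub_of_hasDerivAt (fun t _ => hd t)
    apply Continuous.intervalIntegrable
    fun_prop
  have he1 : P.eval (((1 : ℝ) : ℂ) * a) = 0 := by
    rw [Complex.ofReal_one, one_mul, hPdef, eval_prod]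
    apply Finset.prod_eq_zero (Finset.mem_univ k)
    rw [eval_sub, eval_X, eval_C, ha, sub_self]
  have he0 : ‖P.eval (((0 : ℝ) : ℂ) * a)‖ = ∏ k, ‖z k‖ := by
    rw [Complex.ofReal_zero, zero_mul, hPdef, eval_prod, norm_prod]
    refine Finset.prod_congr rfl fun j _ => ?_
    rw [eval_sub, eval_X, eval_C, zero_sub, norm_neg]
  rw [he1, zero_sub, intervalIntegral.integral_const_mul] at hint
  have hnorm : ‖a‖ ^ (m + 1) * ‖((m : ℂ) + 1) * ∫ t in (0 : ℝ)..1, ∏ i, ((t : ℂ) - w i / a)‖ =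
      ∏ k, ‖z k‖ := by
    rw [← norm_pow, ← norm_mul, ← he0, ← norm_neg (P.eval _), ← hint]
    congr 1
    ring
  rw [hnorm] at hphi'
  exact absurd (Loc933.prod_le z hz2) (not_le.2 hphi')

end Pool.Agent.N795.BV
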