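import Pool.Agent.N819.UD.Stm2

/-!
# Differences along a tree
-/

set_option autoImplicit false

namespace Pool.Agent.N933.UE

open Relation

/-- one step of the tree -/
def Rel {V E : Type} (p lab : E → V) (a : E → V → ZMod 2) (x y u w : V) : Prop :=
  ∃ f, a f x + a f y ≠ 0 ∧ ((p f = u ∧ lab f = w) ∨ (lab f = u ∧ p f = w))

theorem main : Pool.Agent.N819.UD.S_TREE := by
  classical
  intro V E _ _ _ _ p lab a _ hexp H _ η x y
  have hadd : ∀ u : ZMod 2, u + u = 0 := fun u => CharTwo.add_self_eq_zero u
  have claim : ReflTransGen (Rel p lab a x y) x y := by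
    by_contra hxy
    have h1 := hexp (fun z => if ReflTransGen (Rel p lab a x y) x z then 1 else 0) x y
    have h2 : ∑ f, ((fun z => if ReflTransGen (Rel p lab a x y) x z then (1 : ZMod 2) else 0) (p f) +
        (fun z => if ReflTransGen (Rel p lab a x y) x z then (1 : ZMod 2) else 0) (lab f)) *
          (a f x + a f y) = 0 := by
      refine Finset.sum_eq_zero fun f _ => ?_
      by_cases hf : a f x + a f y = 0
      · rw [hf, mul_zero]
      · have h3 : ReflTransGen (Rel p lab a x y) x (p f) ↔
            ReflTransGen (Rel p lab a x y) x (lab f) :=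
          ⟨fun h => h.tail ⟨f, hf, Or.inl ⟨rfl, rfl⟩⟩, fun h => h.tail ⟨f, hf, Or.inr ⟨rfl, rfl⟩⟩⟩
        simp only [h3, hadd, zero_mul]
    rw [h2] at h1
    simp only [ReflTransGen.refl, if_true, hxy, if_false, add_zero] at h1
    exact one_ne_zero h1
  have key : ∀ z, ReflTransGen (Rel p lab a x y) x z → (η x)⁻¹ * η z ∈ Subgroup.closure
        {h : H | ∃ f, a f x + a f y ≠ 0 ∧ h = (η (lab f))⁻¹ * η (p f)} := by
    intro z hz
    induction hz with
    | refl => rw [inv_mul_cancel]; exact one_mem _
    | tail _ hstep ih =>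
      rename_i u w _
      have h1 : (η u)⁻¹ * η w ∈ Subgroup.closure
          {h : H | ∃ f, a f x + a f y ≠ 0 ∧ h = (η (lab f))⁻¹ * η (p f)} := by
        obtain ⟨f, hf, h | h⟩ := hstep
        · have h2 := inv_mem (Subgroup.subset_closure (k := {h : H | ∃ f, a f x + a f y ≠ 0 ∧
            h = (η (lab f))⁻¹ * η (p f)}) ⟨f, hf, rfl⟩)
          rw [mul_inv_rev, inv_inv, h.1, h.2] at h2
          exact h2
        · have h2 := Subgroup.subset_closure (k := {h : H | ∃ f, a f x + a f y ≠ 0 ∧
            h = (η (lab f))⁻¹ * η (p f)}) ⟨f, hf, rfl⟩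
          rw [h.1, h.2] at h2
          exact h2
      have h3 := mul_mem ih h1
      rwa [mul_assoc, mul_inv_cancel_left] at h3
  exact key y claim

end Pool.Agent.N933.UE
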