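import Pool.Agent.N988.EA.Stm5

/-!
EA/LIM (helper933 for project EA of helper988): the second moments of tanh tend to zero.
-/

set_option autoImplicit false

open MeasureTheory Set Filter
open scoped ENNReal Topology

namespace Pool.Agent.N933.EA

open Pool.Agent.N988.EA

theorem tanh_sq_le (x : ℝ) : Real.tanh x ^ 2 ≤ x ^ 2 := by
  have h1 := Real.cosh_le_exp_half_sq x
  have h2 := Real.cosh_pos x
  have h3 : Real.cosh x ^ 2 ≤ Real.exp (x ^ 2) := by
    calc Real.cosh x ^ 2 ≤ Real.exp (x ^ 2 / 2) ^ 2 := pow_le_pow_left₀ h2.le h1 2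
      _ = _ := by
        rw [← Real.exp_nat_mul]
        congr 1
        push_cast
        ring
  have h4 : Real.exp (-(x ^ 2)) ≤ 1 / Real.cosh x ^ 2 := by
    rw [Real.exp_neg, ← one_div]
    exact one_div_le_one_div_of_le (by positivity) h3
  have h5 := Real.add_one_le_exp (-(x ^ 2))
  have h6 : Real.tanh x ^ 2 = 1 - 1 / Real.cosh x ^ 2 := by
    rw [Real.tanh_eq_sinh_div_cosh, div_pow, Real.sinh_sq]
    field_simp
  rw [h6]
  linarith

theorem tanh_sq_le_one (x : ℝ) : Real.tanh x ^ 2 ≤ 1 := by
  have h2 := Real.cosh_pos x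
  have h6 : Real.tanh x ^ 2 = 1 - 1 / Real.cosh x ^ 2 := by
    rw [Real.tanh_eq_sinh_div_cosh, div_pow, Real.sinh_sq]
    field_simp
  rw [h6]
  have : 0 ≤ 1 / Real.cosh x ^ 2 := by positivity
  linarith

theorem tanh_cont : Continuous Real.tanh := by
  have : Real.tanh = fun x => Real.sinh x / Real.cosh x := by
    ext x
    exact Real.tanh_eq_sinh_div_cosh x
  rw [this]
  exact Real.continuous_sinh.div Real.continuous_cosh fun x => (Real.cosh_pos x).ne'

theorem ph_meas : Measurable fun p : ℝ × ℝ => ph p.1 p.2 := by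
  unfold ph
  refine Measurable.div_const ?_ _
  exact Real.measurable_log.comp
    (((Real.measurable_cosh.comp (measurable_fst.add measurable_snd))).div
      (Real.measurable_cosh.comp (measurable_fst.sub measurable_snd)))

theorem lawstep_prob (b : ℕ) (ν : Measure ℝ) [IsProbabilityMeasure ν] :
    IsProbabilityMeasure (lawstep b ν) := by
  have h1 : IsProbabilityMeasure (br ν) := Measure.isProbabilityMeasure_map ph_meas.aemeasurable
  unfold lawstep
  refine Measure.isProbabilityMeasure_map ?_
  fun_prop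

/-- scaling of unimodal laws -/
theorem uni_scale (μ : Measure ℝ) (h : Uni μ) (β : ℝ) (hβ : β ≠ 0) :
    Uni (μ.map fun x => β * x) := by
  obtain ⟨f, hf, he, ha, rfl⟩ := h
  have hfa : ∀ x, f (β⁻¹ * x) = f (|β|⁻¹ * x) := by
    intro x
    rcases abs_choice β with h | h
    · rw [h]
    · rw [h, inv_neg, neg_mul, he]
  refine ⟨fun x => ENNReal.ofReal |β⁻¹| * f (β⁻¹ * x), ?_, ?_, ?_, ?_⟩
  · exact (hf.comp (measurable_const_mul _)).const_mul _
  · intro x
    simp only
    rw [mul_neg, he]
  · intro x hx y hy hxy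
    simp only
    rw [hfa x, hfa y]
    have hb : 0 < |β|⁻¹ := inv_pos.2 (abs_pos.2 hβ)
    refine mul_le_mul_right (ha ?_ ?_ (mul_le_mul_of_nonneg_left hxy hb.le)) _
    · exact mul_pos hb hx
    · exact mul_pos hb hy
  · ext s hs
    rw [Measure.map_apply (measurable_const_mul β) hs, withDensity_apply _ hs,
      withDensity_apply _ (measurable_const_mul β hs)]
    rw [← lintegral_indicator hs, ← lintegral_indicator (measurable_const_mul β hs)]
    have h1 : ∀ x, ((fun x => β * x) ⁻¹' s).indicator (fun a => f a) x =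
        (s.indicator fun y => f (β⁻¹ * y)) (β * x) := by
      intro x
      by_cases hx : β * x ∈ s
      · rw [indicator_of_mem hx, indicator_of_mem (show x ∈ (fun x => β * x) ⁻¹' s from hx)]
        rw [inv_mul_cancel_left₀ hβ]
      · rw [indicator_of_notMem hx, indicator_of_notMem (show x ∉ (fun x => β * x) ⁻¹' s from hx)]
    have hG : Measurable (s.indicator fun y => f (β⁻¹ * y)) :=
      (hf.comp (measurable_const_mul _)).indicator hs
    calc ∫⁻ x, ((fun x => β * x) ⁻¹' s).indicator (fun a => f a) x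
        = ∫⁻ x, (s.indicator fun y => f (β⁻¹ * y)) (β * x) := lintegral_congr h1
      _ = ∫⁻ y, (s.indicator fun y => f (β⁻¹ * y)) y ∂(Measure.map (β * ·) volume) :=
          (lintegral_map hG (measurable_const_mul β)).symm
      _ = ENNReal.ofReal |β⁻¹| * ∫⁻ y, (s.indicator fun y => f (β⁻¹ * y)) y := by
          rw [Real.map_volume_mul_left hβ, lintegral_smul_measure, smul_eq_mul]
      _ = ∫⁻ y, s.indicator (fun x => ENNReal.ofReal |β⁻¹| * f (β⁻¹ * x)) y := by
          rw [← lintegral_const_mul _ hG]
          refine lintegral_congr fun y => ?_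
          by_cases hy : y ∈ s
          · rw [indicator_of_mem hy, indicator_of_mem hy]
          · rw [indicator_of_notMem hy, indicator_of_notMem hy, mul_zero]

/-- from tails to moments -/
theorem mom_le (ν : Measure ℝ) [IsProbabilityMeasure ν] (t : ℝ) :
    ∫ x, Real.tanh x ^ 2 ∂ν ≤ t ^ 2 + (ν {x | t < |x|}).toReal := by
  have hm : MeasurableSet {x : ℝ | t < |x|} := measurableSet_lt measurable_const measurable_norm
  have h1 : Integrable (fun x : ℝ => t ^ 2 + ({x : ℝ | t < |x|}.indicator fun _ => (1 : ℝ)) x) ν :=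
    (integrable_const _).add ((integrable_const _).indicator hm)
  have h2 : ∫ x, Real.tanh x ^ 2 ∂ν ≤
      ∫ x, (t ^ 2 + ({x : ℝ | t < |x|}.indicator fun _ => (1 : ℝ)) x) ∂ν := by
    refine integral_mono_of_nonneg (Eventually.of_forall fun x => by positivity) h1
      (Eventually.of_forall fun x => ?_)
    by_cases hx : t < |x|
    · simp only [indicator_of_mem (show x ∈ {x : ℝ | t < |x|} from hx)]
      have := tanh_sq_le_one x
      nlinarith [sq_nonneg t]
    · simp only [indicator_of_notMem (show x ∉ {x : ℝ | t < |x|} from hx), add_zero]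
      refine (tanh_sq_le x).trans ?_
      rw [← sq_abs x]
      exact pow_le_pow_left₀ (abs_nonneg x) (not_lt.1 hx) 2
  refine h2.trans (le_of_eq ?_)
  rw [integral_add (integrable_const _) ((integrable_const _).indicator hm), integral_const,
    integral_indicator hm, integral_const]
  simp [measureReal_def]

theorem Ht_le (s : ℝ) : Ht s ≤ Real.exp (-s) := by
  unfold Ht
  have h1 := Real.add_one_le_exp s
  calc (1 + s) * Real.exp (-(2 * s)) ≤ Real.exp s * Real.exp (-(2 * s)) :=
        mul_le_mul_of_nonneg_right (by linarith) (Real.exp_pos _).le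
    _ = _ := by
        rw [← Real.exp_add]
        congr 1
        ring

theorem t_LIM (h1 : S_CON) (h2 : S_INI) : S_LIM := by
  intro μ hμ hU c hc hi β
  rcases eq_or_ne β 0 with rfl | hβ
  · refine ⟨0, ?_⟩
    show 2 * ∫ x, Real.tanh x ^ 2 ∂(μ.map fun x => 0 * x) < 1
    have h3 : ∫ x, Real.tanh x ^ 2 ∂(μ.map fun x => (0 : ℝ) * x) =
        ∫ x, Real.tanh (0 * x) ^ 2 ∂μ :=
      integral_map (measurable_const_mul _).aemeasurable
        (f := fun x : ℝ => Real.tanh x ^ 2) ((tanh_cont.pow 2).aestronglyMeasurable)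
    rw [h3]
    simp
  · have hβa : 0 < |β| := abs_pos.2 hβ
    set ν : Measure ℝ := μ.map fun x => β * x with hν
    have hνp : IsProbabilityMeasure ν := Measure.isProbabilityMeasure_map (by fun_prop)
    have hνU : Uni ν := uni_scale μ hU β hβ
    have hνi : Integrable (fun x => Real.exp (c / |β| * |x|)) ν := by
      rw [hν, integrable_map_measure (by fun_prop) (by fun_prop)]
      refine hi.congr (Eventually.of_forall fun x => ?_)
      simp only [Function.comp_apply, abs_mul]
      congr 1
      field_simp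
    obtain ⟨u, hu, hut⟩ := h2 ν hνp hνU (c / |β|) (by positivity) hνi
    have hind : ∀ n : ℕ, IsProbabilityMeasure (lw ν 2 n) ∧ Uni (lw ν 2 n) ∧
        ∀ t : ℝ, 0 ≤ t → lw ν 2 n {x | t < |x|} ≤ ENNReal.ofReal (Ht (t / (u / (11 / 10) ^ n))) := by
      intro n
      induction n with
      | zero =>
        refine ⟨hνp, hνU, fun t ht => ?_⟩
        have := hut t ht
        simpa [lw] using this
      | succ n ih =>
        obtain ⟨i1, i2, i3⟩ := ih
        have h3 := h1 (lw ν 2 n) i1 i2 (u / (11 / 10) ^ n) (by positivity) i3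
        refine ⟨lawstep_prob 2 (lw ν 2 n), h3.1, fun t ht => (h3.2 t ht).trans (le_of_eq ?_)⟩
        congr 2
        field_simp
        ring
    obtain ⟨n, hn⟩ := pow_unbounded_of_one_lt (4 * u) (by norm_num : (1 : ℝ) < 11 / 10)
    obtain ⟨i1, i2, i3⟩ := hind n
    refine ⟨n, ?_⟩
    have h4 := mom_le (lw ν 2 n) (1 / 2)
    have h5 := i3 (1 / 2) (by norm_num)
    have hs : 2 < 1 / 2 / (u / (11 / 10) ^ n) := by
      rw [lt_div_iff₀ (by positivity), mul_div_assoc']
      rw [div_lt_iff₀ (by positivity)]
      linarith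
    set s := 1 / 2 / (u / (11 / 10) ^ n)
    have h6 : Ht s < 1 / 4 := by
      refine (Ht_le s).trans_lt ?_
      calc Real.exp (-s) < Real.exp (-2) := Real.exp_lt_exp.2 (by linarith)
        _ < 1 / 4 := by
          rw [Real.exp_neg, ← one_div]
          refine one_div_lt_one_div_of_lt (by norm_num) ?_
          have h7 : Real.exp 2 = Real.exp 1 * Real.exp 1 := by
            rw [← Real.exp_add]
            norm_num
          have h8 := Real.exp_one_gt_d9
          rw [h7]
          nlinarith
    have h7 : 0 ≤ Ht s := by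
      unfold Ht
      have : 0 ≤ 1 + s := by linarith
      positivity
    have h8 : (lw ν 2 n {x | 1 / 2 < |x|}).toReal ≤ Ht s := by
      have := ENNReal.toReal_mono ENNReal.ofReal_ne_top h5
      rwa [ENNReal.toReal_ofReal h7] at this
    linarith

end Pool.Agent.N933.EA
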