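import Pool.Agent.N709.ST.Stm

/-!
# ST/ONEPT (helper933 for project ST of helper709): one new point
-/

namespace Pool.Agent.N933.ST

open Pool.Agent.N709.ST

/-- the new colouring -/
def nc (t : ℕ) (c : Finset ℕ → ℕ) (A : Finset ℕ) (x : ℕ) (S : Finset ℕ) : ℕ :=
  if x ∈ S then (A.powersetCard t).sup c + 1 + Encodable.encode S else c S

theorem dl_nc (s t : ℕ) (c : Finset ℕ → ℕ) (A : Finset ℕ) (x : ℕ) (Y : Finset ℕ)
    (hY : Y ⊆ insert x A) :
    dl s t (nc t c A x) Y = ((Y.card : ℤ) - (Y.erase x).card) + dl s t c (Y.erase x) := by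
  classical
  have hY0 : Y.erase x ⊆ A := by
    intro y hy
    rw [Finset.mem_erase] at hy
    have := hY hy.2
    rw [Finset.mem_insert] at this
    exact this.resolve_left hy.1
  set P := Y.powersetCard t with hP
  have h0 : P.filter (fun S => x ∉ S) = (Y.erase x).powersetCard t := by
    ext S
    simp only [hP, Finset.mem_filter, Finset.mem_powersetCard]
    constructor
    · rintro ⟨⟨h1, h2⟩, h3⟩
      exact ⟨fun y hy => Finset.mem_erase.2 ⟨fun h => h3 (h ▸ hy), h1 hy⟩, h2⟩
    · rintro ⟨h1, h2⟩
      exact ⟨⟨h1.trans (Finset.erase_subset _ _), h2⟩, fun h => by simpa using h1 h⟩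
  have h1 : (P.filter (fun S => x ∈ S)).card + ((Y.erase x).powersetCard t).card = P.card := by
    rw [← h0]
    exact Finset.card_filter_add_card_filter_not _
  have h2 : cs t (nc t c A x) Y =
      (P.filter (fun S => x ∈ S)).image (nc t c A x) ∪ cs t c (Y.erase x) := by
    have h3 : cs t c (Y.erase x) = (P.filter (fun S => x ∉ S)).image (nc t c A x) := by
      rw [h0]
      unfold cs
      refine Finset.image_congr fun S hS => ?_
      rw [Finset.mem_coe, Finset.mem_powersetCard] at hS
      have : x ∉ S := fun h => by simpa using hS.1 h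
      simp [nc, this]
    rw [h3, ← Finset.image_union, Finset.filter_union_filter_not_eq]
    rfl
  have h4 : Disjoint ((P.filter (fun S => x ∈ S)).image (nc t c A x)) (cs t c (Y.erase x)) := by
    rw [Finset.disjoint_left]
    intro a ha hb
    rw [Finset.mem_image] at ha
    obtain ⟨S, hS, rfl⟩ := ha
    rw [Finset.mem_filter] at hS
    unfold cs at hb
    rw [Finset.mem_image] at hb
    obtain ⟨T, hT, hTS⟩ := hb
    have h5 : c T ≤ (A.powersetCard t).sup c :=
      Finset.le_sup (f := c) (Finset.powersetCard_mono hY0 hT)
    rw [nc, if_pos hS.2] at hTS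
    omega
  have h5 : ((P.filter (fun S => x ∈ S)).image (nc t c A x)).card =
      (P.filter (fun S => x ∈ S)).card := by
    refine Finset.card_image_of_injOn ?_
    intro S hS T hT hST
    rw [Finset.mem_coe, Finset.mem_filter] at hS hT
    simp only [nc, if_pos hS.2, if_pos hT.2] at hST
    exact Encodable.encode_injective (by omega)
  have h6 : (cs t (nc t c A x) Y).card =
      (P.filter (fun S => x ∈ S)).card + (cs t c (Y.erase x)).card := by
    rw [h2, Finset.card_union_of_disjoint h4, h5]
  unfold dl
  rw [h6]
  have h7 : (Y.card.choose t : ℤ) = P.card := by rw [hP, Finset.card_powersetCard]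
  have h8 : ((Y.erase x).card.choose t : ℤ) = ((Y.erase x).powersetCard t).card := by
    rw [Finset.card_powersetCard]
  rw [h7, h8, ← h1]
  push_cast
  ring

theorem onept : OnePt := by
  classical
  intro s t hst c A x hA
  by_cases hx : x ∈ A
  · refine ⟨c, ?_⟩
    rw [Finset.insert_eq_of_mem hx]
    exact ⟨subset_rfl, fun _ _ _ => rfl, hA, subset_rfl, fun Y h1 h2 => by
      rw [Finset.Subset.antisymm h2 h1]⟩
  · refine ⟨nc t c A x, Finset.subset_insert _ _, ?_, ?_, Finset.subset_insert _ _, ?_⟩
    · intro S hS _
      have : x ∉ S := fun h => hx (hS h)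
      simp [nc, this]
    · intro Y hY
      rw [dl_nc s t c A x Y hY]
      have hY0 : Y.erase x ⊆ A := by
        intro y hy
        rw [Finset.mem_erase] at hy
        have := hY hy.2
        rw [Finset.mem_insert] at this
        exact this.resolve_left hy.1
      have h1 := hA _ hY0
      by_cases h : x ∈ Y
      · have h2 := Finset.card_erase_add_one h
        omega
      · rw [Finset.erase_eq_of_notMem h] at h1 ⊢
        omega
    · intro Y h1 h2
      have hY0 : Y.erase x = A := by
        ext y
        rw [Finset.mem_erase]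
        constructor
        · rintro ⟨h3, h4⟩
          have := h2 h4
          rw [Finset.mem_insert] at this
          exact this.resolve_left h3
        · intro h3
          exact ⟨fun h => hx (h ▸ h3), h1 h3⟩
      rw [dl_nc s t c A x Y h2, dl_nc s t c A x A (Finset.subset_insert _ _), hY0,
        Finset.erase_eq_of_notMem hx]
      have := Finset.card_le_card h1
      omega

end Pool.Agent.N933.ST
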