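import Pool.Agent.N841.WS.Stm

/-!
# WS/KUR: the group of a family of sets (helper933)
-/

set_option autoImplicit false

open Cardinal Topology TopologicalSpace Set Filter

namespace Pool.Agent.N933.WSKUR

open Pool.Agent.N841.WS

variable {X : Type} (𝒜 : Set (Set X))

/-- the functions which depend on the trace on `S` only -/
def CS (S : Set X) : Set (𝒜 → ZMod 2) := {k | ∀ A B : 𝒜, A.1 ∩ S = B.1 ∩ S → k A = k B}

theorem CS_mono {S T : Set X} (h : S ⊆ T) : CS 𝒜 S ⊆ CS 𝒜 T := by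
  intro k hk A B hAB
  apply hk
  have h1 : ∀ A : Set X, A ∩ S = (A ∩ T) ∩ S := by
    intro A
    rw [inter_assoc, inter_eq_right.2 h]
  rw [h1, hAB, ← h1]

/-- the group -/
def HH : AddSubgroup (𝒜 → ZMod 2) where
  carrier := {k | ∃ S : Set X, S.Countable ∧ k ∈ CS 𝒜 S}
  zero_mem' := ⟨∅, countable_empty, fun _ _ _ => rfl⟩
  add_mem' := by
    rintro k l ⟨S, hS, hk⟩ ⟨T, hT, hl⟩
    refine ⟨S ∪ T, hS.union hT, fun A B hAB => ?_⟩
    rw [Pi.add_apply, Pi.add_apply, CS_mono 𝒜 subset_union_left hk A B hAB,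
      CS_mono 𝒜 subset_union_right hl A B hAB]
  neg_mem' := by
    rintro k ⟨S, hS, hk⟩
    refine ⟨S, hS, fun A B hAB => ?_⟩
    rw [Pi.neg_apply, Pi.neg_apply, hk A B hAB]

theorem mem_HH {k : 𝒜 → ZMod 2} : k ∈ HH 𝒜 ↔ ∃ S : Set X, S.Countable ∧ k ∈ CS 𝒜 S := Iff.rfl

theorem isClosed_CS (S : Set X) : IsClosed (CS 𝒜 S) := by
  have : CS 𝒜 S = ⋂ A : 𝒜, ⋂ B : 𝒜, ⋂ _ : A.1 ∩ S = B.1 ∩ S, {k | k A = k B} := by
    ext k
    simp [CS]
  rw [this]
  refine isClosed_iInter fun A => isClosed_iInter fun B => isClosed_iInter fun _ => ?_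
  exact isClosed_eq (continuous_apply A) (continuous_apply B)

theorem omegaBounded : OmegaBounded (HH 𝒜) := by
  intro D hD
  choose S hS1 hS2 using fun d : HH 𝒜 => (mem_HH 𝒜).1 d.2
  set U : Set X := ⋃ d ∈ D, S d with hU
  have hUc : U.Countable := hD.biUnion fun d _ => hS1 d
  set C : Set (HH 𝒜) := Subtype.val ⁻¹' CS 𝒜 U with hC
  have hCc : IsCompact C := by
    have h1 : ((fun h : HH 𝒜 => h.1) '' C : Set (𝒜 → ZMod 2)) = CS 𝒜 U := by
      ext k
      constructor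
      · rintro ⟨h, hh, rfl⟩
        exact hh
      · intro hk
        exact ⟨⟨k, U, hUc, hk⟩, hk, rfl⟩
    have h2 : Topology.IsInducing (fun h : HH 𝒜 => h.1) := Topology.IsInducing.subtypeVal
    rw [h2.isCompact_iff, h1]
    exact (isClosed_CS 𝒜 U).isCompact
  have hDC : D ⊆ C := by
    intro d hd
    exact CS_mono 𝒜 (subset_biUnion_of_mem hd) (hS2 d)
  exact hCc.of_isClosed_subset isClosed_closure (closure_minimal hDC hCc.isClosed)

theorem card_le {lam : Cardinal.{0}} (h0 : ℵ₀ ≤ lam) (hX : #X ^ ℵ₀ ≤ lam)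
    (hT : ∀ S : Set X, S.Countable → 2 ^ #(traces 𝒜 S) ≤ lam) (x₀ : X) : #(HH 𝒜) ≤ lam := by
  classical
  let Ψ : (Σ f : ℕ → X, (traces 𝒜 (range f) → ZMod 2)) → (𝒜 → ZMod 2) := fun p A =>
    p.2 ⟨A.1 ∩ range p.1, A.1, A.2, rfl⟩
  have h1 : (HH 𝒜 : Set (𝒜 → ZMod 2)) ⊆ range Ψ := by
    rintro k ⟨S, hS, hk⟩
    obtain ⟨f, hf⟩ := (hS.union (countable_singleton x₀)).exists_eq_range ⟨x₀, Or.inr rfl⟩
    have hk' : k ∈ CS 𝒜 (range f) := by
      rw [← hf]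
      exact CS_mono 𝒜 subset_union_left hk
    refine ⟨⟨f, fun T => k ⟨T.2.choose, T.2.choose_spec.1⟩⟩, ?_⟩
    funext A
    apply hk'
    exact ((⟨A.1 ∩ range f, A.1, A.2, rfl⟩ : traces 𝒜 (range f)).2.choose_spec.2).symm
  calc #(HH 𝒜) ≤ #(range Ψ) := Cardinal.mk_le_mk_of_subset h1
    _ ≤ #(Σ f : ℕ → X, (traces 𝒜 (range f) → ZMod 2)) := Cardinal.mk_range_le
    _ = Cardinal.sum fun f : ℕ → X => #(traces 𝒜 (range f) → ZMod 2) := Cardinal.mk_sigma _
    _ ≤ Cardinal.sum fun _ : ℕ → X => lam := by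
        apply Cardinal.sum_le_sum
        intro f
        have h2 : #(traces 𝒜 (range f) → ZMod 2) = 2 ^ #(traces 𝒜 (range f)) := by
          rw [← Cardinal.power_def]
          congr 1
          exact Cardinal.mk_fintype (ZMod 2)
        rw [h2]
        exact hT _ (countable_range f)
    _ = #(ℕ → X) * lam := Cardinal.sum_const' _ _
    _ ≤ lam * lam := by
        have h3 : #(ℕ → X) = #X ^ ℵ₀ := by
          rw [← Cardinal.power_def, Cardinal.mk_nat]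
        rw [h3]
        exact mul_le_mul_left hX lam
    _ = lam := Cardinal.mul_eq_self h0

/-- the basic open sets -/
def bas (F : Finset (𝒜 × ZMod 2)) : Set (HH 𝒜) := {h | ∀ p ∈ F, h.1 p.1 = p.2}

theorem isOpen_coord (A : 𝒜) (c : ZMod 2) : IsOpen {h : HH 𝒜 | h.1 A = c} := by
  have : {h : HH 𝒜 | h.1 A = c} = (fun h : HH 𝒜 => h.1 A) ⁻¹' {c} := rfl
  rw [this]
  exact (isOpen_discrete {c}).preimage ((continuous_apply A).comp continuous_subtype_val)

theorem isOpen_bas (F : Finset (𝒜 × ZMod 2)) : IsOpen (bas 𝒜 F) := by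
  have : bas 𝒜 F = ⋂ p ∈ F, {h : HH 𝒜 | h.1 p.1 = p.2} := by
    ext h; simp [bas]
  rw [this]
  exact isOpen_biInter_finset fun p _ => isOpen_coord 𝒜 p.1 p.2

theorem exists_bas {U : Set (HH 𝒜)} (hU : IsOpen U) {h : HH 𝒜} (hh : h ∈ U) :
    ∃ I : Finset 𝒜, ∀ g : HH 𝒜, (∀ A ∈ I, g.1 A = h.1 A) → g ∈ U := by
  obtain ⟨V, hV, rfl⟩ := isOpen_induced_iff.1 hU
  obtain ⟨I, u, hI, hu⟩ := isOpen_pi_iff.1 hV h.1 hh
  refine ⟨I, fun g hg => hu ?_⟩
  intro A hA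
  rw [hg A hA]
  exact (hI A hA).2

theorem weight_le [Infinite 𝒜] : weight (HH 𝒜) ≤ #𝒜 := by
  classical
  have hb : IsTopologicalBasis (range (bas 𝒜)) := by
    apply isTopologicalBasis_of_isOpen_of_nhds
    · rintro _ ⟨F, rfl⟩
      exact isOpen_bas 𝒜 F
    · intro h U hh hU
      obtain ⟨I, hI⟩ := exists_bas 𝒜 hU hh
      refine ⟨_, ⟨I.image fun A => (A, h.1 A), rfl⟩, ?_, ?_⟩
      · intro p hp
        obtain ⟨A, _, rfl⟩ := Finset.mem_image.1 hp
        rfl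
      · intro g hg
        exact hI g fun A hA => hg (A, h.1 A) (Finset.mem_image_of_mem _ hA)
  have h1 : weight (HH 𝒜) ≤ #(range (bas 𝒜)) := csInf_le' ⟨_, hb, rfl⟩
  refine h1.trans (Cardinal.mk_range_le.trans ?_)
  rw [Cardinal.mk_finset_of_infinite, Cardinal.mk_prod, Cardinal.lift_id, Cardinal.lift_id]
  have h2 : #(ZMod 2) ≤ #𝒜 := (Cardinal.lt_aleph0_of_finite _).le.trans (Cardinal.aleph0_le_mk _)
  exact (mul_le_mul_right h2 _).trans (Cardinal.mul_eq_self (Cardinal.aleph0_le_mk _)).le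

/-- the indicator of the sets which contain `x` -/
noncomputable def pt (x : X) (A : 𝒜) : ZMod 2 :=
  @ite _ (x ∈ A.1) (Classical.propDecidable _) (1 : ZMod 2) 0

theorem pt_mem (x : X) : pt 𝒜 x ∈ HH 𝒜 := by
  refine ⟨{x}, countable_singleton x, fun A B hAB => ?_⟩
  have h1 : x ∈ A.1 ↔ x ∈ B.1 := by
    have h2 := congrArg (fun T : Set X => x ∈ T) hAB
    simpa using h2
  by_cases h3 : x ∈ A.1
  · have h4 := h1.1 h3
    exact (if_pos h3).trans (if_pos h4).symm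
  · have h4 : x ∉ B.1 := fun h => h3 (h1.2 h)
    exact (if_neg h3).trans (if_neg h4).symm

theorem finite_fib (F : Finset 𝒜) :
    {A : 𝒜 | ∀ h : HH 𝒜, (∀ A' ∈ F, h.1 A' = 0) → h.1 A = 0}.Finite := by
  classical
  let ch : (F → ZMod 2) → HH 𝒜 := fun v =>
    if hv : ∃ h : HH 𝒜, ∀ A' : F, h.1 A'.1 = v A' then hv.choose else 0
  have hch : ∀ h : HH 𝒜, ∀ A' ∈ F, (ch fun A' => h.1 A'.1).1 A' = h.1 A' := by
    intro h A' hA'
    have hv : ∃ g : HH 𝒜, ∀ B : F, g.1 B.1 = h.1 B.1 := ⟨h, fun _ => rfl⟩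
    have h1 : (ch fun A' => h.1 A'.1) = hv.choose := dif_pos hv
    rw [h1]
    exact hv.choose_spec ⟨A', hA'⟩
  rw [← Set.finite_coe_iff]
  refine Finite.of_injective (β := (F → ZMod 2) → ZMod 2) (fun A v => (ch v).1 A.1) ?_
  rintro ⟨A, hA⟩ ⟨B, hB⟩ hAB
  have key : ∀ (A : 𝒜), (∀ h : HH 𝒜, (∀ A' ∈ F, h.1 A' = 0) → h.1 A = 0) → ∀ h : HH 𝒜,
      h.1 A = (ch fun A' => h.1 A'.1).1 A := by
    intro A hA h
    have h1 := hA (h - ch fun A' => h.1 A'.1) fun A' hA' => by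
      show h.1 A' - (ch fun A' => h.1 A'.1).1 A' = 0
      rw [hch h A' hA', sub_self]
    exact sub_eq_zero.1 h1
  have heq : ∀ h : HH 𝒜, h.1 A = h.1 B := by
    intro h
    rw [key A hA h, key B hB h]
    exact congrFun hAB fun A' => h.1 A'.1
  apply Subtype.ext
  apply Subtype.ext
  ext x
  have h1 := heq ⟨_, pt_mem 𝒜 x⟩
  change pt 𝒜 x A = pt 𝒜 x B at h1
  unfold pt at h1
  by_cases hx : x ∈ A.1
  · by_cases hy : x ∈ B.1
    · exact ⟨fun _ => hy, fun _ => hx⟩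
    · rw [if_pos hx, if_neg hy] at h1
      exact absurd h1 one_ne_zero
  · by_cases hy : x ∈ B.1
    · rw [if_neg hx, if_pos hy] at h1
      exact absurd h1.symm one_ne_zero
    · exact ⟨fun h => absurd h hx, fun h => absurd h hy⟩

theorem le_weight (h0 : ℵ₀ < #𝒜) : #𝒜 ≤ weight (HH 𝒜) := by
  classical
  have hne : {κ | ∃ B : Set (Set (HH 𝒜)), IsTopologicalBasis B ∧ #B = κ}.Nonempty :=
    ⟨_, _, isTopologicalBasis_opens, rfl⟩
  obtain ⟨B, hB, hBw⟩ := csInf_mem hne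
  have hBw' : #B = weight (HH 𝒜) := hBw
  rw [← hBw']
  have h1 : ∀ A : 𝒜, ∃ U : B, (0 : HH 𝒜) ∈ U.1 ∧ ∀ h ∈ U.1, h.1 A = 0 := by
    intro A
    obtain ⟨U, hU, hU0, hUs⟩ := hB.exists_subset_of_mem_open (a := (0 : HH 𝒜))
      (u := {h : HH 𝒜 | h.1 A = 0}) rfl (isOpen_coord 𝒜 A 0)
    exact ⟨⟨U, hU⟩, hU0, fun h hh => hUs hh⟩
  choose g hg0 hg using h1
  have hfib : ∀ U : B, {A : 𝒜 | g A = U}.Finite := by
    intro U
    by_cases hU0 : (0 : HH 𝒜) ∈ U.1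
    · obtain ⟨I, hI⟩ := exists_bas 𝒜 (hB.isOpen U.2) hU0
      refine (finite_fib 𝒜 I).subset fun A hA h hh => ?_
      have hA' : g A = U := hA
      apply hg A
      rw [hA']
      exact hI h fun A' hA' => hh A' hA'
    · have : {A : 𝒜 | g A = U} = ∅ := by
        ext A
        constructor
        · intro hA
          exact absurd (hA ▸ hg0 A) hU0
        · intro hA
          exact absurd hA (Set.notMem_empty A)
      rw [this]
      exact finite_empty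
  have h2 : #𝒜 ≤ #B * ℵ₀ := by
    rw [← Cardinal.mk_congr (Equiv.sigmaFiberEquiv g), Cardinal.mk_sigma, ← Cardinal.sum_const']
    apply Cardinal.sum_le_sum
    intro U
    have h3 : Finite {A : 𝒜 // g A = U} := (hfib U).to_subtype
    exact (Cardinal.lt_aleph0_of_finite _).le
  rcases le_total #B ℵ₀ with h | h
  · exfalso
    have h4 : #B * ℵ₀ ≤ ℵ₀ * ℵ₀ := mul_le_mul_left h ℵ₀
    rw [Cardinal.aleph0_mul_aleph0] at h4
    exact absurd (h2.trans h4) (not_le.2 h0)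
  · rwa [Cardinal.mul_eq_left h h Cardinal.aleph0_ne_zero] at h2

theorem t_KUR : S_KUR := by
  intro X 𝒜 lam hlam hX hT hA
  have h0 : ℵ₀ ≤ lam := Cardinal.aleph0_le_continuum.trans hlam
  have hA0 : ℵ₀ < #𝒜 := h0.trans_lt hA
  have hinf : Infinite 𝒜 := Cardinal.infinite_iff.2 hA0.le
  have hXne : Nonempty X := by
    by_contra hcon
    rw [not_nonempty_iff] at hcon
    have : Subsingleton (Set X) := inferInstance
    have h1 : Subsingleton 𝒜 := inferInstance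
    exact not_finite 𝒜
  obtain ⟨x₀⟩ := hXne
  exact ⟨HH 𝒜, inferInstance, inferInstance, inferInstance, inferInstance, omegaBounded 𝒜,
    card_le 𝒜 h0 hX hT x₀, le_antisymm (weight_le 𝒜) (le_weight 𝒜 hA0)⟩

end Pool.Agent.N933.WSKUR
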